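import Pool.Agent.helper943_FA.Defs

/-!
Further definition: `ℵ₁`-centered posets.
-/

namespace Pool.Agent.helper943_FA

open Cardinal

/-- `P` is `ℵ₁`-centered: `P` is a union of at most `ℵ₁` many pieces such that every nonempty
finite subset of a piece has a lower bound in `P`. -/
def Aleph1Centered (P : Type) [PartialOrder P] : Prop :=
  ∃ (κ : Type) (c : P → κ), #κ ≤ ℵ_ 1 ∧
    ∀ F : Finset P, F.Nonempty → (∀ p ∈ F, ∀ q ∈ F, c p = c q) → ∃ r : P, ∀ p ∈ F, r ≤ p

end Pool.Agent.helper943_FA
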