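import Pool.Agent.helper943_FA.Proof
import Pool.Agent.helper943_FA.Defs2

/-!
The posets `Cond h A` are `ℵ₁`-centered and of size at most the continuum; hence ZFC refutes the
forcing axiom for `ℵ₂` dense sets and proper `ℵ₁`-centered posets of size at most the continuum.
-/

namespace Pool.Agent.helper943_FA

open Cardinal

/-- An `ℵ₁`-centered poset has the `ℵ₂`-chain condition. -/
theorem cc_of_centered (P : Type) [PartialOrder P] (hP : Aleph1Centered P) : Aleph2CC P := by
  classical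
  obtain ⟨κ, c, hκ, hc⟩ := hP
  intro W hW
  refine le_trans (mk_le_of_injective (f := fun w : W => c w.1) ?_) hκ
  intro w w' hww
  by_contra hne
  have hne' : w.1 ≠ w'.1 := fun hh => hne (Subtype.ext hh)
  obtain ⟨r, hr⟩ := hc {w.1, w'.1} (by simp) (by
    intro p hp q hq
    simp only [Finset.mem_insert, Finset.mem_singleton] at hp hq
    have e : c w.1 = c w'.1 := hww
    rcases hp with rfl | rfl <;> rcases hq with rfl | rfl <;> simp [e])
  exact hW w.1 w.2 w'.1 w'.2 hne' ⟨r, hr _ (by simp), hr _ (by simp)⟩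

theorem centered_of_countable (P : Type) [PartialOrder P] [Countable P] : Aleph1Centered P := by
  refine ⟨P, id, (mk_le_aleph0).trans (aleph0_le_aleph 1), ?_⟩
  rintro F ⟨p, hp⟩ hF
  exact ⟨p, fun q hq => (hF p hp q hq).le⟩

section Centered

variable {I J : Type} [LinearOrder I] {h : J → I → I} {A : I → J → Bool → Prop}

open Classical in
/-- a separator of `α` from `x` -/
noncomputable def sepr (h : J → I → I) : Atom I J → Atom I J → Option (I × I)
  | .gap α _ _, .side _ _ _ x =>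
      if hex : ∃ δ, ∀ β ∈ x, h β δ ≠ h α δ then some (hex.choose, h α hex.choose) else none
  | _, _ => none

open Classical in
/-- the finite set of separators of a condition -/
noncomputable def seps (p : Cond h A) : Finset (I × I) :=
  ((p.fin.toFinset ×ˢ p.fin.toFinset).image (fun w => sepr h w.1 w.2)).eraseNone

open Classical in
/-- the type of a side atom relative to a finite set of separators -/
noncomputable def kind (h : J → I → I) (Z : Finset (I × I)) :
    Atom I J → Option ((I × I × Bool) × Finset (I × I))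
  | .side δ ν b x => some ((δ, ν, b), Z.filter (fun s => ∀ β ∈ x, h β s.1 ≠ s.2))
  | .gap _ _ _ => none

open Classical in
/-- the type of a condition -/
noncomputable def color (p : Cond h A) :
    Finset (I × I) × Finset (Option ((I × I × Bool) × Finset (I × I))) :=
  (seps p, p.fin.toFinset.image (kind h (seps p)))

theorem mk_finset_le {α : Type} {κ : Cardinal} (hκ : ℵ₀ ≤ κ) (hα : #α ≤ κ) : #(Finset α) ≤ κ := by
  rcases finite_or_infinite α with hf | hf
  · exact (mk_le_aleph0).trans hκ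
  · rw [mk_finset_of_infinite]
    exact hα

theorem mk_prod_le {α β : Type} {κ : Cardinal} (hκ : ℵ₀ ≤ κ) (hα : #α ≤ κ) (hβ : #β ≤ κ) :
    #(α × β) ≤ κ := by
  rw [mk_prod]
  simp only [Cardinal.lift_id]
  exact (mul_le_mul' hα hβ).trans_eq (mul_eq_self hκ)

theorem mk_option_le {α : Type} {κ : Cardinal} (hκ : ℵ₀ ≤ κ) (hα : #α ≤ κ) :
    #(Option α) ≤ κ := by
  rw [mk_option]
  exact (add_le_add hα (one_lt_aleph0.le.trans hκ)).trans_eq (add_eq_self hκ)

theorem mk_sum_le {α β : Type} {κ : Cardinal} (hκ : ℵ₀ ≤ κ) (hα : #α ≤ κ) (hβ : #β ≤ κ) :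
    #(α ⊕ β) ≤ κ := by
  rw [mk_sum]
  simp only [Cardinal.lift_id]
  exact (add_le_add hα hβ).trans_eq (add_eq_self hκ)

/-- The posets `Cond h A` are `ℵ₁`-centered. -/
theorem centered_cond (hI : #I ≤ ℵ_ 1)
    (hsep : ∀ (α : J) (x : Set J), x.Countable → α ∉ x → ∃ δ, ∀ β ∈ x, h β δ ≠ h α δ) :
    Aleph1Centered (Cond h A) := by
  classical
  have h1 : ℵ₀ ≤ (ℵ_ 1 : Cardinal.{0}) := aleph0_le_aleph 1
  refine ⟨_, color, ?_, ?_⟩
  · have hII : #(I × I) ≤ ℵ_ 1 := mk_prod_le h1 hI hI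
    have hB : #Bool ≤ ℵ_ 1 := (mk_le_aleph0).trans h1
    exact mk_prod_le h1 (mk_finset_le h1 hII) (mk_finset_le h1 (mk_option_le h1
      (mk_prod_le h1 (mk_prod_le h1 hI (mk_prod_le h1 hI hB)) (mk_finset_le h1 hII))))
  · intro F hF hcol
    -- matching side atoms
    have key : ∀ p ∈ F, ∀ q ∈ F, ∀ δ ν b x, Atom.side δ ν b x ∈ p.S →
        ∃ x', Atom.side δ ν b x' ∈ q.S ∧
          ∀ s ∈ seps q, (∀ β ∈ x', h β s.1 ≠ s.2) → ∀ β ∈ x, h β s.1 ≠ s.2 := by
      intro p hp q hq δ ν b x ha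
      have hc : color p = color q := hcol p hp q hq
      have hc1 : seps p = seps q := congrArg Prod.fst hc
      have hc2 : p.fin.toFinset.image (kind h (seps p)) = q.fin.toFinset.image (kind h (seps q)) :=
        congrArg Prod.snd hc
      have hm : kind h (seps p) (Atom.side δ ν b x) ∈ p.fin.toFinset.image (kind h (seps p)) :=
        Finset.mem_image_of_mem _ (by simpa using ha)
      rw [hc2] at hm
      obtain ⟨c, hcq, hck⟩ := Finset.mem_image.1 hm
      have hcq' : c ∈ q.S := by simpa using hcq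
      cases c with
      | gap _ _ _ => simp [kind] at hck
      | side δ' ν' b' x' =>
        simp only [kind, Option.some.injEq, Prod.mk.injEq] at hck
        obtain ⟨⟨rfl, rfl, rfl⟩, hfil⟩ := hck
        refine ⟨x', hcq', ?_⟩
        intro s hs hsx
        have : s ∈ (seps q).filter (fun s => ∀ β ∈ x', h β s.1 ≠ s.2) :=
          Finset.mem_filter.2 ⟨hs, hsx⟩
        rw [hfil] at this
        exact (Finset.mem_filter.1 this).2
    have sepq : ∀ q : Cond h A, ∀ δ ν b x α ξ ζ, Atom.side δ ν b x ∈ q.S →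
        Atom.gap α ξ ζ ∈ q.S → α ∉ x → ∃ s ∈ seps q, h α s.1 = s.2 ∧ ∀ β ∈ x, h β s.1 ≠ s.2 := by
      intro q δ ν b x α ξ ζ ha hc hαx
      have hex : ∃ δ, ∀ β ∈ x, h β δ ≠ h α δ := hsep α x (q.val _ ha).1 hαx
      refine ⟨(hex.choose, h α hex.choose), ?_, rfl, hex.choose_spec⟩
      unfold seps
      rw [Finset.mem_eraseNone]
      refine Finset.mem_image.2 ⟨(Atom.gap α ξ ζ, Atom.side δ ν b x), ?_, ?_⟩
      · simp [ha, hc]
      · simp only [sepr]
        rw [dif_pos hex]
    let r : Cond h A :=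
      { S := ⋃ p ∈ F, p.S
        fin := F.finite_toSet.biUnion (fun p _ => p.fin)
        val := by
          intro a ha
          simp only [Set.mem_iUnion] at ha
          obtain ⟨p, hp, hap⟩ := ha
          exact p.val a hap
        ok := by
          intro a ha c hc hbad
          simp only [Set.mem_iUnion] at ha hc
          obtain ⟨p, hp, hap⟩ := ha
          obtain ⟨q, hq, hcq⟩ := hc
          cases a with
          | gap _ _ _ => exact hbad
          | side δ ν b x =>
            obtain ⟨x', hx', hsx'⟩ := key p hp q hq δ ν b x hap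
            cases c with
            | side δ₂ ν₂ b₂ x₂ => exact q.ok _ hx' _ hcq hbad
            | gap α ξ ζ =>
              obtain ⟨g1, g2, g3⟩ := hbad
              have hα : α ∉ x' := fun hh => q.ok _ hx' _ hcq ⟨hh, g2, g3⟩
              obtain ⟨s, hs, hs1, hs2⟩ := sepq q δ ν b x' α ξ ζ hx' hcq hα
              exact hsx' s hs hs2 α g1 hs1 }
    refine ⟨r, ?_⟩
    intro p hp
    rw [le_def]
    intro a ha
    change a ∈ ⋃ p ∈ F, p.S
    simp only [Set.mem_iUnion]
    exact ⟨p, hp, ha⟩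

/-- The posets `Cond h A` have size at most the continuum if the index sets do. -/
theorem mk_cond_le (hI : #I ≤ 𝔠) (hJ : #J ≤ 𝔠) : #(Cond h A) ≤ 𝔠 := by
  classical
  have h1 : ℵ₀ ≤ (𝔠 : Cardinal.{0}) := aleph0_le_continuum
  -- enumerations of countable sets
  have hen : ∀ x : {x : Set J // x.Countable}, ∃ e : ℕ → Option J, ∀ α, α ∈ x.1 ↔ ∃ n, e n = some α := by
    rintro ⟨x, hx⟩
    rcases x.eq_empty_or_nonempty with rfl | hne
    · exact ⟨fun _ => none, by simp⟩
    · obtain ⟨e, he⟩ := hx.exists_eq_range hne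
      refine ⟨fun n => some (e n), fun α => ?_⟩
      change α ∈ x ↔ _
      rw [he]
      simp
  choose en hen using hen
  have hen_inj : Function.Injective en := by
    intro x y hxy
    apply Subtype.ext
    ext α
    rw [hen, hen, hxy]
  have hcount : #{x : Set J // x.Countable} ≤ 𝔠 := by
    refine (mk_le_of_injective hen_inj).trans ?_
    rw [mk_arrow]
    simp only [Cardinal.lift_id, mk_nat]
    calc #(Option J) ^ ℵ₀ ≤ 𝔠 ^ ℵ₀ := Cardinal.power_le_power_right (mk_option_le h1 hJ)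
      _ = 𝔠 := continuum_power_aleph0
  -- valid atoms
  let g : {a : Atom I J // Valid h A a} → (I × I × Bool × {x : Set J // x.Countable}) ⊕ (J × I × I) :=
    fun a => match a with
      | ⟨.side δ ν b x, hv⟩ => .inl (δ, ν, b, ⟨x, hv.1⟩)
      | ⟨.gap α ξ ζ, _⟩ => .inr (α, ξ, ζ)
  have hg : Function.Injective g := by
    rintro ⟨a, ha⟩ ⟨c, hc⟩ hac
    cases a <;> cases c <;> simp_all [g]
  have hB : #Bool ≤ 𝔠 := (mk_le_aleph0).trans h1
  have hVA : #{a : Atom I J // Valid h A a} ≤ 𝔠 :=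
    (mk_le_of_injective hg).trans (mk_sum_le h1
      (mk_prod_le h1 hI (mk_prod_le h1 hI (mk_prod_le h1 hB hcount)))
      (mk_prod_le h1 hJ (mk_prod_le h1 hI hI)))
  -- conditions
  have hfin : ∀ p : Cond h A, {a : {a : Atom I J // Valid h A a} | a.1 ∈ p.S}.Finite :=
    fun p => p.fin.preimage Subtype.val_injective.injOn
  let k : Cond h A → Finset {a : Atom I J // Valid h A a} := fun p => (hfin p).toFinset
  have hk : Function.Injective k := by
    intro p q hpq
    apply Cond.ext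
    ext a
    constructor
    · intro ha
      have : (⟨a, p.val a ha⟩ : {a : Atom I J // Valid h A a}) ∈ k p := by simp [k, ha]
      rw [hpq] at this
      simpa [k] using this
    · intro ha
      have : (⟨a, q.val a ha⟩ : {a : Atom I J // Valid h A a}) ∈ k q := by simp [k, ha]
      rw [← hpq] at this
      simpa [k] using this
  exact (mk_le_of_injective hk).trans (mk_finset_le h1 hVA)

end Centered

section Final

/-- The contradiction, from the forcing axiom for proper `ℵ₁`-centered posets of size at most the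
continuum. -/
theorem no_FA_centered (hFA : ∀ (P : Type) [PartialOrder P], Nonempty P → #P ≤ 𝔠 → IsProper P →
    Aleph1Centered P → FAx P) : False := by
  classical
  let I : Type := (ℵ_ 1).ord.ToType
  let J : Type := (ℵ_ 2).ord.ToType
  have hI : #I = ℵ_ 1 := mk_ord_toType _
  have hJ : #J = ℵ_ 2 := mk_ord_toType _
  have h12 : (ℵ_ 2 : Cardinal.{0}) = Order.succ (ℵ_ 1) := by
    rw [succ_aleph]
    congr 1
    norm_num
  have h01 : (ℵ_ 1 : Cardinal.{0}) = Order.succ ℵ₀ := by
    rw [← aleph_zero, succ_aleph]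
    congr 1
    norm_num
  have hI1 : ∀ δ : I, (Set.Iic δ).Countable := by
    intro δ
    have h1 : #(Set.Iio δ) < ℵ_ 1 := (mk_Iio_lt δ (by simp [I])).trans_eq hI
    have h2 : #(Set.Iio δ) ≤ ℵ₀ := Order.lt_succ_iff.1 (h1.trans_eq h01)
    rw [← Set.Iio_insert]
    exact (le_aleph0_iff_set_countable.1 h2).insert δ
  have hI2 : ∀ s : Set I, s.Countable → ∃ b, ∀ a ∈ s, a < b := by
    intro s hs
    by_contra! hcon
    have h1 : (⋃ a ∈ s, Set.Iic a) = Set.univ := by
      apply Set.eq_univ_of_forall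
      intro b
      obtain ⟨a, ha, hab⟩ := hcon b
      exact Set.mem_biUnion ha hab
    have h2 : (Set.univ : Set I).Countable := by
      rw [← h1]
      exact hs.biUnion (fun a _ => hI1 a)
    have h3 := le_aleph0_iff_set_countable.2 h2
    rw [mk_univ, hI] at h3
    exact absurd h3 (not_le.2 aleph0_lt_aleph_one)
  have hJI : ∀ α : J, #(Set.Iio α) ≤ #I := by
    intro α
    have h1 : #(Set.Iio α) < ℵ_ 2 := (mk_Iio_lt α (by simp [J])).trans_eq hJ
    exact (Order.lt_succ_iff.1 (h1.trans_eq h12)).trans_eq hI.symm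
  obtain ⟨h, ρ, hρ⟩ := exists_family hI1 hI2 hJI
  have hsep : ∀ (α : J) (x : Set J), x.Countable → α ∉ x → ∃ δ, ∀ β ∈ x, h β δ ≠ h α δ := by
    intro α x hx hα
    obtain ⟨δ, hδ⟩ := hI2 ((fun β => ρ β α) '' x) (hx.image _)
    exact ⟨δ, fun β hβ => hρ β α δ (fun hh => hα (hh ▸ hβ)) (hδ _ ⟨β, hβ, rfl⟩)⟩
  have hcoh := many_reals (hFA Coh0 ⟨⟨[]⟩⟩
    ((mk_le_aleph0 (α := Coh0)).trans aleph0_le_continuum) (proper_of_countable _)
    (centered_of_countable _))
  have hJc : #J ≤ 𝔠 := by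
    rw [hJ]
    refine hcoh.le.trans_eq ?_
    simp
  obtain ⟨r⟩ : Nonempty (J ↪ (ℕ → Bool)) := (Cardinal.le_def _ _).1 (by rw [hJ]; exact hcoh.le)
  have hJne : Nonempty J := by
    rw [← mk_ne_zero_iff, hJ]
    exact (aleph_pos 2).ne'
  -- the main consequence of the forcing axiom
  have main : ∀ A : I → J → Bool → Prop,
      (∀ (δ : I) (x : Set J), Set.InjOn (fun α => h α δ) x → ∃ b, ∀ α ∈ x, A δ α b) →
      ∃ G : Set (Cond h A), IsFilt G ∧ ∀ α, IsClubI (EE G α) := by
    intro A hA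
    have hP : IsProper (Cond h A) := proper_cond hI1 hI2 ρ hρ hA
    have hcc : Aleph1Centered (Cond h A) := centered_cond hI.le hsep
    have hsize : #(Cond h A) ≤ 𝔠 :=
      mk_cond_le (hI.le.trans aleph_one_le_continuum) hJc
    let D : (J × I) ⊕ (J × I) → Set (Cond h A) := fun a =>
      match a with
      | .inl c => Dunb h A c.1 c.2
      | .inr c => Dcl h A c.1 c.2
    have hne : Nonempty (Cond h A) := ⟨⟨∅, Set.finite_empty, by simp, by simp⟩⟩
    obtain ⟨G, hG, hGD⟩ := hFA (Cond h A) hne hsize hP hcc ((J × I) ⊕ (J × I)) D (by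
      have h0 : ℵ₀ ≤ (ℵ_ 2 : Cardinal.{0}) := aleph0_le_aleph 2
      have h1 : #(J × I) ≤ ℵ_ 2 := mk_prod_le h0 hJ.le (hI.le.trans aleph1_le_aleph2)
      exact mk_sum_le h0 h1 h1) (by
      rintro (⟨α, ξ⟩ | ⟨α, ξ⟩)
      · exact dunb_dense hI2 hA α ξ
      · exact dcl_dense α ξ)
    exact ⟨G, hG, fun α => club_EE hG (fun α ξ => hGD (.inl (α, ξ)))
      (fun α ξ => hGD (.inr (α, ξ))) α⟩
  -- the first filter bounds the heights
  obtain ⟨G₀, hG₀, hE₀⟩ := main (fun _ _ _ => True) (fun _ _ _ => ⟨true, fun _ _ => trivial⟩)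
  have hg : ∀ δ : I, ∃ g : I, δ < g ∧ ∀ α, δ ∈ EE G₀ α → h α δ < g := by
    intro δ
    obtain ⟨g, ⟨p, hp, ν, b, x, hpx, -⟩, hδg⟩ := (hE₀ hJne.some).unb δ
    refine ⟨g, hδg, ?_⟩
    rintro α ⟨p', hp', ν', b', x', hpx', hα'⟩
    have h1 : h α δ ≤ ν' := (p'.val _ hpx').2.2.1 α hα'
    have h2 := notBad_of_filter hG₀ hp' hp hpx' hpx
    refine h1.trans_lt ?_
    by_contra hcon
    exact h2 (Or.inl ⟨hδg, not_lt.1 hcon⟩)
  choose g hg1 hg2 using hg
  have hη : ∀ δ : I, ∃ η : ℕ → I, ∀ ζ < g δ, ∃ j, η j = ζ := by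
    intro δ
    obtain ⟨η, hη⟩ := ((hI1 (g δ)).mono Set.Iio_subset_Iic_self).exists_eq_range ⟨δ, hg1 δ⟩
    refine ⟨η, fun ζ hζ => ?_⟩
    have : ζ ∈ Set.range η := hη ▸ hζ
    exact this
  choose η hη using hη
  -- the filters deciding the bits
  have hbits : ∀ jm : ℕ × ℕ, ∃ G : Set (Cond h
      (fun δ α b => h α δ = η δ jm.1 → r α jm.2 = b)), IsFilt G ∧ ∀ α, IsClubI (EE G α) := by
    intro jm
    apply main
    intro δ x hx
    by_cases hex : ∃ α ∈ x, h α δ = η δ jm.1
    · obtain ⟨α, hα, hαη⟩ := hex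
      refine ⟨r α jm.2, ?_⟩
      intro β hβ hβη
      rw [hx hβ hα (hβη.trans hαη.symm)]
    · exact ⟨true, fun α hα hαη => absurd ⟨α, hα, hαη⟩ hex⟩
  choose G hG hE using hbits
  have hpt : ∀ α : J, ∃ δ : I, δ ∈ EE G₀ α ∧ ∀ jm, δ ∈ EE (G jm) α := by
    intro α
    obtain ⟨δ, hδ⟩ := inter_club hI2 (ι := Option (ℕ × ℕ))
      (fun o => match o with
        | none => EE G₀ α
        | some jm => EE (G jm) α) (by
      rintro (_ | jm)
      · exact hE₀ α
      · exact hE jm α)
    exact ⟨δ, hδ none, fun jm => hδ (some jm)⟩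
  choose d hd1 hd2 using hpt
  -- an uncountable fibre
  have hfib : ∃ δ, ¬ {α | d α = δ}.Countable := by
    by_contra! hall
    have h1 := small_iUnion hI.le (fun δ => {α | d α = δ}) (fun δ => small_of_countable (hall δ))
    have h2 : (⋃ δ, {α | d α = δ}) = Set.univ := by
      ext α; simp
    rw [h2, mk_univ, hJ, h12] at h1
    exact absurd (Order.lt_succ (ℵ_ 1 : Cardinal.{0})) (not_lt.2 h1)
  obtain ⟨δ, hδ⟩ := hfib
  apply hδ
  refine Set.MapsTo.countable_of_injOn (f := fun α => h α δ) (t := Set.Iio (g δ)) ?_ ?_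
    ((hI1 _).mono Set.Iio_subset_Iic_self)
  · intro α hα
    have : d α = δ := hα
    exact hg2 δ α (this ▸ hd1 α)
  · intro α hα β hβ hαβ
    have eα : d α = δ := hα
    have eβ : d β = δ := hβ
    have hhαβ : h α δ = h β δ := hαβ
    apply r.injective
    funext m
    obtain ⟨j, hj⟩ := hη δ (h α δ) (hg2 δ α (eα ▸ hd1 α))
    obtain ⟨p, hp, ν, b, x, hpx, hαx⟩ := eα ▸ hd2 α (j, m)
    obtain ⟨p', hp', ν', b', x', hpx', hβx⟩ := eβ ▸ hd2 β (j, m)
    have h1 : r α m = b := (p.val _ hpx).2.2.2 α hαx hj.symm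
    have h2 : r β m = b' := (p'.val _ hpx').2.2.2 β hβx (hhαβ ▸ hj.symm)
    have h3 : b = b' := by
      by_contra hne
      exact notBad_of_filter (hG (j, m)) hp hp' hpx hpx' (Or.inr ⟨rfl, hne⟩)
    rw [h1, h2, h3]

end Final

end Pool.Agent.helper943_FA
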