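import Mathlib

/-!
Definitions for the result on `FA_{ℵ₂}` and proper posets with the `ℵ₂`-chain condition.
-/

namespace Pool.Agent.helper943_FA

open Cardinal

/-- Two conditions are compatible if they have a common extension. -/
def Compat {P : Type} [PartialOrder P] (p q : P) : Prop := ∃ t : P, t ≤ p ∧ t ≤ q

/-- Dense subsets of a poset: every condition has an extension in the set. -/
def IsDenseSet {P : Type} [PartialOrder P] (D : Set P) : Prop := ∀ p : P, ∃ d ∈ D, d ≤ p

/-- Filters of a poset: nonempty, upwards closed, downwards directed. -/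
structure IsFilt {P : Type} [PartialOrder P] (G : Set P) : Prop where
  nonempty : G.Nonempty
  up : ∀ p ∈ G, ∀ q, p ≤ q → q ∈ G
  dir : ∀ p ∈ G, ∀ q ∈ G, ∃ t ∈ G, t ≤ p ∧ t ≤ q

/-- Closed unbounded families of countable subsets of `X`. -/
structure IsClub {X : Type} (C : Set (Set X)) : Prop where
  countable : ∀ M ∈ C, M.Countable
  unbounded : ∀ A : Set X, A.Countable → ∃ M ∈ C, A ⊆ M
  closed : ∀ M : ℕ → Set X, Monotone M → (∀ n, M n ∈ C) → (⋃ n, M n) ∈ C

/-- `q` is `(M, P)`-generic, where conditions and sets of conditions are identified with elements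
of `X` by `i` and `j`: for every dense `D` in `M`, the set `D ∩ M` is predense below `q`. -/
def IsGeneric {P X : Type} [PartialOrder P] (i : P → X) (j : Set P → X) (M : Set X) (q : P) :
    Prop :=
  ∀ D : Set P, IsDenseSet D → j D ∈ M → ∀ r : P, r ≤ q → ∃ d ∈ D, i d ∈ M ∧ Compat d r

/-- `P` is proper. -/
def IsProper (P : Type) [PartialOrder P] : Prop :=
  ∀ (X : Type) (i : P → X) (j : Set P → X), Function.Injective i → Function.Injective j →
    ∃ C : Set (Set X), IsClub C ∧ ∀ M ∈ C, ∀ p : P, i p ∈ M → ∃ q : P, q ≤ p ∧ IsGeneric i j M q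

/-- The `ℵ₂`-chain condition: every antichain has cardinality at most `ℵ₁`. -/
def Aleph2CC (P : Type) [PartialOrder P] : Prop :=
  ∀ W : Set P, (∀ p ∈ W, ∀ q ∈ W, p ≠ q → ¬ Compat p q) → #W ≤ ℵ_ 1

end Pool.Agent.helper943_FA
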