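import Pool.Agent.helper943_FA.Proof

/-!
ZFC refutes the forcing axiom for `ℵ₂` dense sets and proper posets with the `ℵ₂`-chain condition.
-/

namespace Pool.Agent.helper943_FA.PlainForm

open Cardinal Pool.Agent.helper943_FA

/-- **ZFC refutes `FA_{ℵ₂}(proper ℵ₂-c.c.)`**: there is a nonempty proper poset with the
`ℵ₂`-chain condition and a family of `ℵ₂` dense subsets that no single filter meets. -/
theorem plain_form : ∃ (P : Type) (_ : PartialOrder P), Nonempty P ∧ IsProper P ∧ Aleph2CC P ∧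
    ∃ (ι : Type) (D : ι → Set P), #ι = ℵ_ 2 ∧ (∀ a, IsDenseSet (D a)) ∧
      ∀ G : Set P, IsFilt G → ∃ a, G ∩ D a = ∅ := by
  by_contra hcon
  apply no_FA
  intro P _ hne hP hcc ι D hι hD
  by_contra hno
  apply hcon
  refine ⟨P, inferInstance, hne, hP, hcc, ι ⊕ (ℵ_ 2).ord.ToType, fun a => match a with
    | .inl a => D a
    | .inr _ => Set.univ, ?_, ?_, ?_⟩
  · rw [mk_sum]
    simp only [Cardinal.lift_id, mk_ord_toType]
    exact add_eq_right (aleph0_le_aleph 2) hι
  · rintro (a | a)
    · exact hD a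
    · exact fun p => ⟨p, trivial, le_rfl⟩
  · intro G hG
    by_contra hcon'
    push Not at hcon'
    exact hno ⟨G, hG, fun a => Set.nonempty_iff_ne_empty.2 (Set.nonempty_iff_ne_empty.1
      (hcon' (.inl a)))⟩

end Pool.Agent.helper943_FA.PlainForm
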