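import Pool.Agent.helper943_FA.Defs

/-!
ZFC refutes the forcing axiom for `ℵ₂` dense sets and proper posets with the `ℵ₂`-chain condition.

Sketch. Let `h α : ω₁ → ω₁` for `α < ω₂` be eventually different, with `h α δ ≠ h β δ` for all
`δ > ρ α β`. For a parameter `A`, the poset `Cond h A` adds clubs `E α` of `ω₁` for all `α < ω₂`
with finite conditions: a side atom `(δ, ν, b, x)` puts `δ` into `E α` for all `α` in the countable
set `x`, on which `h · δ` is injective and at most `ν`, and a gap atom keeps an interval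
out of one `E α`. No two sides satisfy `δ < δ' ≤ ν`, and `b` is a bit decided at `δ` subject to
`A δ α b` for `α ∈ x`. The poset is proper: for countable closed `M` with `δ = M ∩ ω₁` the atom
`(δ, ν, b, M ∩ ω₂)` makes a condition of `M` generic; the reason is that a finite-set compactness
argument inside `M` finds an extension in `M` avoiding the conflicts with the finitely many side
atoms below `δ` of a given condition. It has the `ℵ₂`-chain condition by a counting argument.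

If the forcing axiom held, then the continuum would be larger than `ℵ₂` (Cohen forcing), so there
are distinct reals `r α`, `α < ω₂`. A first filter gives clubs and a function `g` with
`h α δ < g δ` for `δ ∈ E α`. Enumerate the ordinals below `g δ` as `η δ j`. For all `j, m` a
filter for the parameter that says that `b` is the `m`-th bit of `r α` whenever `h α δ = η δ j`
gives further clubs. A point in the intersection of these clubs for uncountably many `α`
contradicts that `h · δ` is injective there: equal values give equal reals.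
-/

namespace Pool.Agent.helper943_FA

open Cardinal

/-! ### Closing off countable sets -/

section Closure

variable {T : Type}

/-- the least superset of `B` closed under `F` -/
def clos (F : List T → Set T) (B : Set T) : Set T :=
  ⋂₀ {Z | B ⊆ Z ∧ ∀ l : List T, (∀ t ∈ l, t ∈ Z) → F l ⊆ Z}

theorem subset_clos (F : List T → Set T) (B : Set T) : B ⊆ clos F B :=
  fun _ hx _ hZ => hZ.1 hx

theorem clos_closed (F : List T → Set T) (B : Set T) (l : List T) (hl : ∀ t ∈ l, t ∈ clos F B) :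
    F l ⊆ clos F B := by
  intro x hx Z hZ
  exact hZ.2 l (fun t ht => hl t ht Z hZ) hx

theorem clos_min (F : List T → Set T) (B Z : Set T) (h1 : B ⊆ Z)
    (h2 : ∀ l : List T, (∀ t ∈ l, t ∈ Z) → F l ⊆ Z) : clos F B ⊆ Z :=
  fun _ hx => hx Z ⟨h1, h2⟩

theorem clos_mono (F : List T → Set T) {B B' : Set T} (h : B ⊆ B') : clos F B ⊆ clos F B' :=
  clos_min F B _ (h.trans (subset_clos F B')) (clos_closed F B')

/-- the stages of the closure -/
def stage (F : List T → Set T) (B : Set T) : ℕ → Set T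
  | 0 => B
  | n + 1 => stage F B n ∪ ⋃ l ∈ {l : List T | ∀ t ∈ l, t ∈ stage F B n}, F l

theorem stage_countable (F : List T → Set T) (hF : ∀ l, (F l).Countable) (B : Set T)
    (hB : B.Countable) (n : ℕ) : (stage F B n).Countable := by
  induction n with
  | zero => exact hB
  | succ n ih =>
    refine ih.union (Set.Countable.biUnion ?_ (fun l _ => hF l))
    have := ih.to_subtype
    rw [← Set.range_list_map_coe]
    exact Set.countable_range _

theorem clos_countable (F : List T → Set T) (hF : ∀ l, (F l).Countable) (B : Set T)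
    (hB : B.Countable) : (clos F B).Countable := by
  have hmono : Monotone (stage F B) := monotone_nat_of_le_succ (fun n => Set.subset_union_left)
  refine Set.Countable.mono (clos_min F B (⋃ n, stage F B n) ?_ ?_)
    (Set.countable_iUnion (stage_countable F hF B hB))
  · exact Set.subset_iUnion (stage F B) 0
  · intro l hl
    have : ∃ n, ∀ t ∈ l, t ∈ stage F B n := by
      induction l with
      | nil => exact ⟨0, by simp⟩
      | cons a l ih =>
        obtain ⟨n, hn⟩ := ih (fun t ht => hl t (List.mem_cons_of_mem _ ht))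
        obtain ⟨m, hm⟩ := Set.mem_iUnion.1 (hl a (List.mem_cons_self ..))
        refine ⟨max n m, ?_⟩
        intro t ht
        rcases List.mem_cons.1 ht with rfl | ht
        · exact hmono (le_max_right _ _) hm
        · exact hmono (le_max_left _ _) (hn t ht)
    obtain ⟨n, hn⟩ := this
    refine Set.Subset.trans ?_ (Set.subset_iUnion (stage F B) (n + 1))
    intro x hx
    exact Or.inr (Set.mem_biUnion (x := l) hn hx)

theorem clos_iUnion (F : List T → Set T) (B : ℕ → Set T) (hB : Monotone B) :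
    clos F (⋃ n, B n) ⊆ ⋃ n, clos F (B n) := by
  refine clos_min F _ _ (Set.iUnion_mono (fun n => subset_clos F (B n))) ?_
  intro l hl
  have : ∃ n, ∀ t ∈ l, t ∈ clos F (B n) := by
    induction l with
    | nil => exact ⟨0, by simp⟩
    | cons a l ih =>
      obtain ⟨n, hn⟩ := ih (fun t ht => hl t (List.mem_cons_of_mem _ ht))
      obtain ⟨m, hm⟩ := Set.mem_iUnion.1 (hl a (List.mem_cons_self ..))
      refine ⟨max n m, ?_⟩
      intro t ht
      rcases List.mem_cons.1 ht with rfl | ht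
      · exact clos_mono F (hB (le_max_right _ _)) hm
      · exact clos_mono F (hB (le_max_left _ _)) (hn t ht)
  obtain ⟨n, hn⟩ := this
  exact (clos_closed F (B n) l hn).trans (Set.subset_iUnion (fun n => clos F (B n)) n)

/-- Countable sets that are traces of closed sets form a club. -/
theorem club_of_closure {X : Type} (e : X → T) (he : Function.Injective e)
    (F : List T → Set T) (hF : ∀ l, (F l).Countable) :
    IsClub {M : Set X | M.Countable ∧ ∀ a, e a ∈ clos F (e '' M) → a ∈ M} where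
  countable := fun M hM => hM.1
  unbounded := by
    intro A hA
    have hc : (clos F (e '' A)).Countable := clos_countable F hF _ (hA.image e)
    refine ⟨{a | e a ∈ clos F (e '' A)}, ⟨?_, ?_⟩, ?_⟩
    · exact hc.preimage he
    · intro a ha
      refine clos_min F (e '' {a | e a ∈ clos F (e '' A)}) _ ?_ (clos_closed F _) ha
      rintro _ ⟨b, hb, rfl⟩
      exact hb
    · intro a ha
      exact subset_clos F _ ⟨a, ha, rfl⟩
  closed := by
    intro M hM hMC
    refine ⟨Set.countable_iUnion (fun n => (hMC n).1), ?_⟩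
    intro a ha
    rw [Set.image_iUnion] at ha
    obtain ⟨n, hn⟩ := Set.mem_iUnion.1
      (clos_iUnion F (fun n => e '' M n) (fun m n hmn => Set.image_mono (hM hmn)) ha)
    exact Set.mem_iUnion.2 ⟨n, (hMC n).2 a hn⟩

end Closure

/-! ### The poset -/

section Poset

variable {I J : Type}

/-- The building blocks of the conditions. -/
inductive Atom (I J : Type) : Type
  | side (δ ν : I) (b : Bool) (x : Set J) : Atom I J
  | gap (α : J) (ξ ζ : I) : Atom I J

/-- the atoms allowed in conditions -/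
def Valid [LinearOrder I] (h : J → I → I) (A : I → J → Bool → Prop) : Atom I J → Prop
  | .side δ ν b x =>
      x.Countable ∧ Set.InjOn (fun α => h α δ) x ∧ (∀ α ∈ x, h α δ ≤ ν) ∧ ∀ α ∈ x, A δ α b
  | .gap _ _ _ => True

/-- the pairs of atoms excluding each other -/
def Bad [LinearOrder I] : Atom I J → Atom I J → Prop
  | .side δ ν b _, .side δ' _ b' _ => (δ < δ' ∧ δ' ≤ ν) ∨ (δ = δ' ∧ b ≠ b')
  | .side δ _ _ x, .gap α ξ ζ => α ∈ x ∧ ξ < δ ∧ δ ≤ ζ
  | .gap _ _ _, _ => False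

/-- the conditions -/
@[ext]
structure Cond [LinearOrder I] (h : J → I → I) (A : I → J → Bool → Prop) : Type where
  S : Set (Atom I J)
  fin : S.Finite
  val : ∀ a ∈ S, Valid h A a
  ok : ∀ a ∈ S, ∀ c ∈ S, ¬ Bad a c

variable [LinearOrder I] {h : J → I → I} {A : I → J → Bool → Prop}

instance : PartialOrder (Cond h A) where
  le p q := q.S ⊆ p.S
  le_refl p := subset_rfl
  le_trans p q r h1 h2 := Set.Subset.trans h2 h1
  le_antisymm p q h1 h2 := Cond.ext (Set.Subset.antisymm h2 h1)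

theorem le_def {p q : Cond h A} : p ≤ q ↔ q.S ⊆ p.S := Iff.rfl

/-- Sufficient condition for the union of two conditions to be a condition. -/
theorem compat_of {p q : Cond h A} (h1 : ∀ a ∈ p.S, ∀ c ∈ q.S, ¬ Bad a c ∧ ¬ Bad c a) :
    ∃ t : Cond h A, t.S = p.S ∪ q.S := by
  refine ⟨⟨p.S ∪ q.S, p.fin.union q.fin, ?_, ?_⟩, rfl⟩
  · rintro a (ha | ha)
    · exact p.val a ha
    · exact q.val a ha
  · rintro a (ha | ha) c (hc | hc)
    · exact p.ok a ha c hc
    · exact (h1 a ha c hc).1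
    · exact (h1 c hc a ha).2
    · exact q.ok a ha c hc

/-- Adding one atom. -/
theorem exists_insert (p : Cond h A) (a : Atom I J) (ha : Valid h A a) (haa : ¬ Bad a a)
    (h1 : ∀ c ∈ p.S, ¬ Bad a c ∧ ¬ Bad c a) : ∃ t : Cond h A, t.S = insert a p.S := by
  refine ⟨⟨insert a p.S, p.fin.insert a, ?_, ?_⟩, rfl⟩
  · rintro c (rfl | hc)
    · exact ha
    · exact p.val c hc
  · rintro c (rfl | hc) d (rfl | hd)
    · exact haa
    · exact (h1 d hd).1
    · exact (h1 c hc).2
    · exact p.ok c hc d hd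

/-- conditions below `u` that lie below an element of `D` -/
def Sset (D : Set (Cond h A)) (u : Cond h A) : Set (Cond h A) := {s | s ≤ u ∧ ∃ d ∈ D, s ≤ d}

/-- `w` points to a gap of `s` outside `u` around one of the entries of `L` -/
def IsTag (u s : Cond h A) (L : List (I × I)) (w : J × I × I × Fin L.length) : Prop :=
  Atom.gap w.1 w.2.1 w.2.2.1 ∈ s.S ∧ Atom.gap w.1 w.2.1 w.2.2.1 ∉ u.S ∧
  w.2.1 < (L.get w.2.2.2).1 ∧ (L.get w.2.2.2).1 ≤ w.2.2.1 ∧
  h w.1 (L.get w.2.2.2).1 ≤ (L.get w.2.2.2).2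

/-- coherence of tags -/
def Coh (h : J → I → I) (L : List (I × I)) (w w' : J × I × I × Fin L.length) : Prop :=
  w.2.2.2 = w'.2.2.2 → w.1 = w'.1 ∨ h w.1 (L.get w.2.2.2).1 ≠ h w'.1 (L.get w.2.2.2).1

/-- the conditions in `K` can be given coherent tags -/
def Good (u : Cond h A) (L : List (I × I)) (K : Set (Cond h A)) : Prop :=
  ∃ f : (s : Cond h A) → s ∈ K → J × I × I × Fin L.length,
    (∀ s hs, IsTag u s L (f s hs)) ∧ ∀ s hs s' hs', Coh h L (f s hs) (f s' hs')

theorem finite_tags (u s : Cond h A) (L : List (I × I)) : {w | IsTag u s L w}.Finite := by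
  let g : J × I × I × Fin L.length → Atom I J × Fin L.length :=
    fun w => (Atom.gap w.1 w.2.1 w.2.2.1, w.2.2.2)
  have hg : Function.Injective g := by
    rintro ⟨a, b, c, d⟩ ⟨a', b', c', d'⟩ hh
    simp only [g, Prod.mk.injEq, Atom.gap.injEq] at hh
    obtain ⟨⟨rfl, rfl, rfl⟩, rfl⟩ := hh
    rfl
  have hfin : (s.S ×ˢ (Set.univ : Set (Fin L.length))).Finite := s.fin.prod Set.finite_univ
  refine (hfin.preimage (hg.injOn)).subset ?_
  intro w hw
  exact ⟨hw.1, trivial⟩

theorem good_of_finite (u : Cond h A) (L : List (I × I)) (K : Set (Cond h A))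
    (hK : ∀ K' ⊆ K, K'.Finite → Good u L K') : Good u L K := by
  classical
  have hfin : ∀ s : K, Finite {w // IsTag u s.1 L w} := fun s => (finite_tags u s.1 L).to_subtype
  have hex : ∀ F : Finset K, ∃ g : (a : F) → {w // IsTag u a.1.1 L w},
      ∀ a b : F, Coh h L (g a).1 (g b).1 := by
    intro F
    obtain ⟨f, hf1, hf2⟩ := hK (Subtype.val '' (F : Set K)) (by
      rintro _ ⟨x, -, rfl⟩
      exact x.2) (F.finite_toSet.image _)
    refine ⟨fun a => ⟨f a.1.1 ⟨a.1, a.2, rfl⟩, hf1 _ _⟩, ?_⟩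
    intro a b
    exact hf2 _ _ _ _
  choose g hg using hex
  obtain ⟨χ, hχ⟩ := Finset.rado_selection_subtype (β := fun s : K => {w // IsTag u s.1 L w}) g
  refine ⟨fun s hs => (χ ⟨s, hs⟩).1, fun s hs => (χ ⟨s, hs⟩).2, ?_⟩
  intro s hs s' hs'
  obtain ⟨t, hst, ht⟩ := hχ {⟨s, hs⟩, ⟨s', hs'⟩}
  have h1 := ht ⟨⟨s, hs⟩, by simp⟩
  have h2 := ht ⟨⟨s', hs'⟩, by simp⟩
  have h3 := hg t (Set.inclusion hst ⟨⟨s, hs⟩, by simp⟩) (Set.inclusion hst ⟨⟨s', hs'⟩, by simp⟩)
  rw [← h1, ← h2] at h3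
  exact h3

theorem countable_of_good (hI1 : ∀ δ : I, (Set.Iic δ).Countable) (u : Cond h A) (L : List (I × I))
    (K : Set (Cond h A)) (hK : Good u L K) :
    ∃ y : Set J, y.Countable ∧ ∀ s ∈ K, ∃ w, IsTag u s L w ∧ w.1 ∈ y := by
  obtain ⟨f, hf1, hf2⟩ := hK
  refine ⟨⋃ k : Fin L.length, {α | ∃ s hs, (f s hs).1 = α ∧ (f s hs).2.2.2 = k}, ?_, ?_⟩
  · refine Set.countable_iUnion (fun k => ?_)
    refine Set.MapsTo.countable_of_injOn (f := fun α => h α (L.get k).1)
      (t := Set.Iic (L.get k).2) ?_ ?_ (hI1 _)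
    · rintro _ ⟨s, hs, rfl, rfl⟩
      exact (hf1 s hs).2.2.2.2
    · rintro _ ⟨s, hs, rfl, rfl⟩ _ ⟨s', hs', rfl, hk⟩ hEq
      rcases hf2 s hs s' hs' hk.symm with h1 | h1
      · exact h1
      · exact absurd hEq h1
  · intro s hs
    exact ⟨f s hs, hf1 s hs, Set.mem_iUnion.2 ⟨(f s hs).2.2.2, s, hs, rfl, rfl⟩⟩

open Classical in
/-- a finite set without coherent tags, if there is one -/
noncomputable def FF (D : Set (Cond h A)) (u : Cond h A) (L : List (I × I)) : Set (Cond h A) :=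
  if hex : ∃ K ⊆ Sset D u, K.Finite ∧ ¬ Good u L K then hex.choose else ∅

open Classical in
/-- a countable hitting set, if there is one -/
noncomputable def ystar (D : Set (Cond h A)) (u : Cond h A) (L : List (I × I)) : Set J :=
  if hex : ∃ y : Set J, y.Countable ∧ ∀ s ∈ Sset D u, ∃ w, IsTag u s L w ∧ w.1 ∈ y then
    hex.choose else ∅

theorem FF_finite (D : Set (Cond h A)) (u : Cond h A) (L : List (I × I)) : (FF D u L).Finite := by
  unfold FF
  split_ifs with hex
  · exact hex.choose_spec.2.1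
  · exact Set.finite_empty

theorem ystar_countable (D : Set (Cond h A)) (u : Cond h A) (L : List (I × I)) :
    (ystar D u L).Countable := by
  unfold ystar
  split_ifs with hex
  · exact hex.choose_spec.1
  · exact Set.countable_empty

/-- Either the finite set `FF` is bad or the countable set `ystar` hits everything. -/
theorem dichotomy (hI1 : ∀ δ : I, (Set.Iic δ).Countable) (D : Set (Cond h A)) (u : Cond h A)
    (L : List (I × I)) :
    (FF D u L ⊆ Sset D u ∧ ¬ Good u L (FF D u L)) ∨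
      ∀ s ∈ Sset D u, ∃ w, IsTag u s L w ∧ w.1 ∈ ystar D u L := by
  by_cases hex : ∃ K ⊆ Sset D u, K.Finite ∧ ¬ Good u L K
  · left
    unfold FF
    rw [dif_pos hex]
    exact ⟨hex.choose_spec.1, hex.choose_spec.2.2⟩
  · right
    have hex' : ∃ y : Set J, y.Countable ∧ ∀ s ∈ Sset D u, ∃ w, IsTag u s L w ∧ w.1 ∈ y := by
      refine countable_of_good hI1 u L _ (good_of_finite u L _ ?_)
      intro K hK hKf
      by_contra hcon
      exact hex ⟨K, hK, hKf, hcon⟩
    unfold ystar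
    rw [dif_pos hex']
    exact hex'.choose_spec.2

/-- remove the countable set from a side atom -/
def strip : Atom I J → Atom I J
  | .side δ ν b _ => .side δ ν b ∅
  | .gap α ξ ζ => .gap α ξ ζ

/-- the pair of ordinals of an atom -/
def dn : Atom I J → I × I
  | .side δ ν _ _ => (δ, ν)
  | .gap _ ξ ζ => (ξ, ζ)

/-- the countable set of an atom -/
def xs : Atom I J → Set J
  | .side _ _ _ x => x
  | .gap _ _ _ => ∅

omit [LinearOrder I] in
theorem strip_strip (a : Atom I J) : strip (strip a) = strip a := by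
  cases a <;> rfl

theorem bad_strip_left {a c : Atom I J} (hb : Bad (strip a) c) : Bad a c := by
  cases a <;> cases c <;> simp_all [strip, Bad]

theorem bad_strip_right {a c : Atom I J} (hb : Bad a (strip c)) : Bad a c := by
  cases a <;> cases c <;> simp_all [strip, Bad]

theorem valid_strip {a : Atom I J} (ha : Valid h A a) : Valid h A (strip a) := by
  cases a <;> simp_all [strip, Valid]

/-- a condition together with its stripped atoms -/
def plus (r : Cond h A) : Cond h A where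
  S := r.S ∪ strip '' r.S
  fin := r.fin.union (r.fin.image _)
  val := by
    rintro a (ha | ⟨c, hc, rfl⟩)
    · exact r.val a ha
    · exact valid_strip (r.val c hc)
  ok := by
    rintro a (ha | ⟨a, ha, rfl⟩) c (hc | ⟨c, hc, rfl⟩) hb
    · exact r.ok a ha c hc hb
    · exact r.ok a ha c hc (bad_strip_right hb)
    · exact r.ok a ha c hc (bad_strip_left hb)
    · exact r.ok a ha c hc (bad_strip_left (bad_strip_right hb))

theorem plus_le (r : Cond h A) : plus r ≤ r := Set.subset_union_left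

theorem strip_mem_plus (r : Cond h A) {a : Atom I J} (ha : a ∈ (plus r).S) :
    strip a ∈ (plus r).S := by
  rcases ha with ha | ⟨c, hc, rfl⟩
  · exact Or.inr ⟨a, ha, rfl⟩
  · exact Or.inr ⟨c, hc, (strip_strip c).symm⟩

/-- the part of a condition in a set -/
def restr (r : Cond h A) (B : Set (Atom I J)) : Cond h A where
  S := {a | a ∈ r.S ∧ a ∈ B}
  fin := r.fin.subset (fun _ ha => ha.1)
  val := fun a ha => r.val a ha.1
  ok := fun a ha c hc => r.ok a ha.1 c hc.1

theorem valid_xs {a : Atom I J} (ha : Valid h A a) :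
    Set.InjOn (fun α => h α (dn a).1) (xs a) ∧ ∀ α ∈ xs a, h α (dn a).1 ≤ (dn a).2 := by
  cases a with
  | side δ ν b x => exact ⟨ha.2.1, ha.2.2.1⟩
  | gap α ξ ζ => exact ⟨by simp [xs], by simp [xs]⟩

/-- The main step of the proof of properness. -/
theorem generic_core
    (hI1 : ∀ δ : I, (Set.Iic δ).Countable)
    (hI2 : ∀ s : Set I, s.Countable → ∃ b, ∀ a ∈ s, a < b)
    (hA : ∀ (δ : I) (x : Set J), Set.InjOn (fun α => h α δ) x → ∃ b, ∀ α ∈ x, A δ α b)
    (δ : I) (BJ : Set J) (BP : Set (Cond h A)) (BD : Set (Set (Cond h A))) (BA : Set (Atom I J))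
    (hBJ : BJ.Countable) (hinj : Set.InjOn (fun α => h α δ) BJ)
    (h1 : ∀ p ∈ BP, p.S ⊆ BA)
    (h2 : ∀ δ' ν' b x, Atom.side δ' ν' b x ∈ BA → x.Countable → δ' < δ ∧ ν' < δ ∧ x ⊆ BJ)
    (h3 : ∀ α ξ ζ, Atom.gap α ξ ζ ∈ BA → α ∈ BJ ∧ ξ < δ ∧ ζ < δ)
    (h4 : ∀ δ' ν' b, δ' < δ → ν' < δ → Atom.side δ' ν' b ∅ ∈ BA)
    (h5 : ∀ α ξ ζ, α ∈ BJ → ξ < δ → ζ < δ → Atom.gap α ξ ζ ∈ BA)
    (h6 : ∀ u : Cond h A, u.S ⊆ BA → u ∈ BP)
    (h7 : ∀ D ∈ BD, ∀ u ∈ BP, ∀ L : List (I × I), (∀ k ∈ L, k.1 < δ ∧ k.2 < δ) →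
      FF D u L ⊆ BP ∧ ystar D u L ⊆ BJ)
    (h8 : ∀ D ∈ BD, ∀ s ∈ BP, (∃ d ∈ D, s ≤ d) → ∃ d ∈ D, s ≤ d ∧ d ∈ BP)
    (p : Cond h A) (hp : p ∈ BP) :
    ∃ q, q ≤ p ∧ ∀ D ∈ BD, IsDenseSet D → ∀ r, r ≤ q → ∃ d ∈ D, d ∈ BP ∧ Compat d r := by
  classical
  obtain ⟨b, hb⟩ := hA δ BJ hinj
  obtain ⟨ν, hν⟩ := hI2 ((fun α => h α δ) '' BJ) (hBJ.image _)
  have hbigv : Valid h A (Atom.side δ ν b BJ) :=
    ⟨hBJ, hinj, fun α hα => (hν _ ⟨α, hα, rfl⟩).le, hb⟩
  have hsideBP : ∀ s ∈ BP, ∀ δ' ν' b' x', Atom.side δ' ν' b' x' ∈ s.S →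
      δ' < δ ∧ ν' < δ ∧ x' ⊆ BJ := by
    intro s hs δ' ν' b' x' ha
    exact h2 δ' ν' b' x' (h1 s hs ha) (s.val _ ha).1
  obtain ⟨q, hq⟩ := exists_insert p (Atom.side δ ν b BJ) hbigv (by simp [Bad]) (by
    intro c hc
    cases c with
    | side δ' ν' b' x' =>
      obtain ⟨e1, e2, e3⟩ := hsideBP p hp _ _ _ _ hc
      refine ⟨?_, ?_⟩
      · rintro (⟨g1, g2⟩ | ⟨g1, g2⟩)
        · exact absurd g1 (not_lt.2 e1.le)
        · exact absurd g1 e1.ne'
      · rintro (⟨g1, g2⟩ | ⟨g1, g2⟩)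
        · exact absurd e2 (not_lt.2 g2)
        · exact absurd g1 e1.ne
    | gap α ξ ζ =>
      obtain ⟨e1, e2, e3⟩ := h3 _ _ _ (h1 p hp hc)
      refine ⟨?_, fun hh => hh⟩
      rintro ⟨g1, g2, g3⟩
      exact absurd e3 (not_lt.2 g3))
  refine ⟨q, ?_, ?_⟩
  · rw [le_def, hq]
    exact Set.subset_insert _ _
  intro D hD hDd r hr
  obtain ⟨r1, hr1D, hr1⟩ := hDd r
  -- the extended condition
  have hrp1 : plus r1 ≤ r1 := plus_le r1
  set rp : Cond h A := plus r1 with hrpdef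
  have hbig : Atom.side δ ν b BJ ∈ rp.S := by
    apply hrp1
    apply hr1
    apply hr
    rw [hq]
    exact Set.mem_insert _ _
  -- its trace
  have hu : restr rp BA ∈ BP := h6 _ (fun a ha => ha.2)
  set u : Cond h A := restr rp BA with hudef
  -- the sides below `δ`
  let La : List (Atom I J) := rp.fin.toFinset.toList.filter
    (fun a => ∃ δ' ν' b' x', a = Atom.side δ' ν' b' x' ∧ δ' < δ)
  have hLa : ∀ a, a ∈ La ↔ a ∈ rp.S ∧ ∃ δ' ν' b' x', a = Atom.side δ' ν' b' x' ∧ δ' < δ := by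
    intro a
    simp [La]
  let L : List (I × I) := La.map dn
  have hlen : L.length = La.length := List.length_map ..
  let at' : Fin L.length → Atom I J := fun k => La.get (Fin.cast hlen k)
  have hat : ∀ k, L.get k = dn (at' k) := by
    intro k
    simp [L, at']
  have hatmem : ∀ k, at' k ∈ La := fun k => List.get_mem _ _
  have hatr : ∀ k, at' k ∈ rp.S := fun k => ((hLa _).1 (hatmem k)).1
  have hatsurj : ∀ a ∈ La, ∃ k, at' k = a := by
    intro a ha
    obtain ⟨n, hn⟩ := List.get_of_mem ha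
    refine ⟨Fin.cast hlen.symm n, ?_⟩
    simp only [at']
    exact hn
  have hlow : ∀ δ' ν' b' x', Atom.side δ' ν' b' x' ∈ rp.S → δ' < δ → ν' < δ := by
    intro δ' ν' b' x' ha hlt
    by_contra hcon
    exact rp.ok _ ha _ hbig (Or.inl ⟨hlt, not_lt.1 hcon⟩)
  have hLlow : ∀ k ∈ L, k.1 < δ ∧ k.2 < δ := by
    intro k hk
    obtain ⟨a, ha, rfl⟩ := List.mem_map.1 hk
    obtain ⟨hm, δ', ν', b', x', rfl, hlt⟩ := (hLa a).1 ha
    exact ⟨hlt, hlow _ _ _ _ hm hlt⟩
  have hgetlow : ∀ k : Fin L.length, (L.get k).1 < δ := fun k => (hLlow _ (List.get_mem _ _)).1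
  obtain ⟨hFF, hys⟩ := h7 D hD u hu L hLlow
  have hrpS : rp ∈ Sset D u := ⟨fun a ha => ha.1, r1, hr1D, hrp1⟩
  -- the hit lemma
  have hit : ∃ s ∈ Sset D u, s ∈ BP ∧ ¬ ∃ (α : J) (ξ ζ : I) (k : Fin L.length),
      Atom.gap α ξ ζ ∈ s.S ∧ Atom.gap α ξ ζ ∉ u.S ∧ α ∈ xs (at' k) ∧ ξ < (L.get k).1 ∧
      (L.get k).1 ≤ ζ := by
    by_contra! hcon
    rcases dichotomy hI1 D u L with ⟨hF1, hF2⟩ | hy
    · apply hF2
      have hch : ∀ s, s ∈ FF D u L → ∃ w : J × I × I × Fin L.length, Atom.gap w.1 w.2.1 w.2.2.1 ∈ s.S ∧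
          Atom.gap w.1 w.2.1 w.2.2.1 ∉ u.S ∧ w.1 ∈ xs (at' w.2.2.2) ∧ w.2.1 < (L.get w.2.2.2).1 ∧
          (L.get w.2.2.2).1 ≤ w.2.2.1 := by
        intro s hs
        obtain ⟨α, ξ, ζ, k, hk⟩ := hcon s (hF1 hs) (hFF hs)
        exact ⟨(α, ξ, ζ, k), hk⟩
      choose f hf using hch
      refine ⟨f, ?_, ?_⟩
      · intro s hs
        obtain ⟨g1, g2, g3, g4, g5⟩ := hf s hs
        refine ⟨g1, g2, g4, g5, ?_⟩
        have := (valid_xs (rp.val _ (hatr (f s hs).2.2.2))).2 _ g3
        rwa [← hat] at this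
      · intro s hs s' hs' hk
        by_contra! hne
        apply hne.1
        have hv := (valid_xs (rp.val _ (hatr (f s hs).2.2.2))).1
        rw [← hat] at hv
        refine hv (hf s hs).2.2.1 ?_ hne.2
        rw [hk]
        exact (hf s' hs').2.2.1
    · obtain ⟨w, hw, hwy⟩ := hy rp hrpS
      obtain ⟨g1, g2, g3, g4, g5⟩ := hw
      have hwB : w.1 ∈ BJ := hys hwy
      have hξ : w.2.1 < δ := g3.trans (hgetlow _)
      by_cases hζ : w.2.2.1 < δ
      · exact g2 ⟨g1, h5 _ _ _ hwB hξ hζ⟩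
      · exact rp.ok _ hbig _ g1 ⟨hwB, hξ, not_lt.1 hζ⟩
  obtain ⟨s, hsS, hsB, hsn⟩ := hit
  obtain ⟨d, hdD, hsd, hdB⟩ := h8 D hD s hsB hsS.2
  refine ⟨d, hdD, hdB, ?_⟩
  have hsu : u.S ⊆ s.S := hsS.1
  obtain ⟨t, ht⟩ := compat_of (p := s) (q := rp) (by
    intro a ha c hc
    cases a with
    | side δ₁ ν₁ b₁ x₁ =>
      obtain ⟨e1, e2, e3⟩ := hsideBP s hsB _ _ _ _ ha
      cases c with
      | side δ₂ ν₂ b₂ x₂ =>
        by_cases hδ : δ₂ < δ
        · have hν2 := hlow _ _ _ _ hc hδ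
          have hcs : Atom.side δ₂ ν₂ b₂ (∅ : Set J) ∈ s.S := by
            apply hsu
            exact ⟨strip_mem_plus r1 hc, h4 _ _ _ hδ hν2⟩
          exact ⟨fun hbad => s.ok _ ha _ hcs hbad, fun hbad => s.ok _ hcs _ ha hbad⟩
        · rw [not_lt] at hδ
          refine ⟨?_, ?_⟩
          · rintro (⟨g1, g2⟩ | ⟨g1, g2⟩)
            · exact absurd (e2.trans_le hδ) (not_lt.2 g2)
            · exact absurd g1 (e1.trans_le hδ).ne
          · rintro (⟨g1, g2⟩ | ⟨g1, g2⟩)
            · exact absurd g1 (not_lt.2 (e1.trans_le hδ).le)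
            · exact absurd g1 (e1.trans_le hδ).ne'
      | gap α ξ ζ =>
        refine ⟨?_, fun hh => hh⟩
        rintro ⟨g1, g2, g3⟩
        have hα : α ∈ BJ := e3 g1
        have hξ : ξ < δ := g2.trans e1
        by_cases hζ : ζ < δ
        · have : Atom.gap α ξ ζ ∈ s.S := hsu ⟨hc, h5 _ _ _ hα hξ hζ⟩
          exact s.ok _ ha _ this ⟨g1, g2, g3⟩
        · exact rp.ok _ hbig _ hc ⟨hα, hξ, not_lt.1 hζ⟩
    | gap α ξ ζ =>
      refine ⟨fun hh => hh, ?_⟩
      cases c with
      | gap _ _ _ => exact fun hh => hh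
      | side δ₂ ν₂ b₂ x₂ =>
        rintro ⟨g1, g2, g3⟩
        by_cases hgu : Atom.gap α ξ ζ ∈ u.S
        · exact rp.ok _ hc _ hgu.1 ⟨g1, g2, g3⟩
        · apply hsn
          have hζ : ζ < δ := (h3 _ _ _ (h1 s hsB ha)).2.2
          obtain ⟨k, hk⟩ := hatsurj (Atom.side δ₂ ν₂ b₂ x₂)
            ((hLa _).2 ⟨hc, _, _, _, _, rfl, g3.trans_lt hζ⟩)
          refine ⟨α, ξ, ζ, k, ha, hgu, ?_, ?_, ?_⟩
          · rw [hk]; exact g1
          · rw [hat, hk]; exact g2
          · rw [hat, hk]; exact g3)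
  refine ⟨t, ?_, ?_⟩
  · refine le_trans ?_ hsd
    rw [le_def, ht]
    exact Set.subset_union_left
  · refine le_trans ?_ (hrp1.trans hr1)
    rw [le_def, ht]
    exact Set.subset_union_right

/-- The objects that occur in the closure argument. -/
inductive Tok (X P I J : Type) : Type
  | x (a : X) : Tok X P I J
  | p (a : P) : Tok X P I J
  | s (a : Set P) : Tok X P I J
  | i (a : I) : Tok X P I J
  | j (a : J) : Tok X P I J
  | k (a b : I) : Tok X P I J
  | a (a : Atom I J) : Tok X P I J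

/-- the pair coded by a token -/
def dec {X P I J : Type} : Tok X P I J → Option (I × I)
  | .k a b => some (a, b)
  | _ => none

open Classical in
/-- an element of `D` above `s`, if there is one -/
noncomputable def dd (D : Set (Cond h A)) (s : Cond h A) : Cond h A :=
  if hex : ∃ d ∈ D, s ≤ d then hex.choose else s

section Ops

variable {X : Type} (i : Cond h A → X) (j : Set (Cond h A) → X) (ρ : J → J → I)

/-- tokens of `X` are translated -/
def F1 : List (Tok X (Cond h A) I J) → Set (Tok X (Cond h A) I J)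
  | [.x a] => {t | ∃ p, i p = a ∧ t = .p p} ∪ {t | ∃ D, j D = a ∧ t = .s D}
  | _ => ∅

/-- conditions give their code and their atoms -/
def F2 : List (Tok X (Cond h A) I J) → Set (Tok X (Cond h A) I J)
  | [.p q] => {.x (i q)} ∪ (Tok.a '' q.S)
  | _ => ∅

/-- initial segments -/
def F3 : List (Tok X (Cond h A) I J) → Set (Tok X (Cond h A) I J)
  | [.i δ] => Tok.i '' Set.Iio δ
  | _ => ∅

/-- separation indices -/
def F4 : List (Tok X (Cond h A) I J) → Set (Tok X (Cond h A) I J)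
  | [.j α, .j β] => {.i (ρ α β)}
  | _ => ∅

/-- components of side atoms -/
def F5 : List (Tok X (Cond h A) I J) → Set (Tok X (Cond h A) I J)
  | [.a (.side δ ν _ x)] => {.i δ, .i ν} ∪ {t | x.Countable ∧ ∃ α ∈ x, t = .j α}
  | _ => ∅

/-- components of gap atoms -/
def F6 : List (Tok X (Cond h A) I J) → Set (Tok X (Cond h A) I J)
  | [.a (.gap α ξ ζ)] => {.j α, .i ξ, .i ζ}
  | _ => ∅

/-- new side atoms and pairs -/
def F7 : List (Tok X (Cond h A) I J) → Set (Tok X (Cond h A) I J)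
  | [.i δ, .i ν] => {.k δ ν, .a (.side δ ν true ∅), .a (.side δ ν false ∅)}
  | _ => ∅

/-- new gap atoms -/
def F8 : List (Tok X (Cond h A) I J) → Set (Tok X (Cond h A) I J)
  | [.j α, .i ξ, .i ζ] => {.a (.gap α ξ ζ)}
  | _ => ∅

/-- the objects given by the hit lemma and by membership in `D` -/
noncomputable def F9 : List (Tok X (Cond h A) I J) → Set (Tok X (Cond h A) I J)
  | .s D :: .p u :: l => (Tok.j '' ystar D u (l.filterMap dec)) ∪
      (Tok.p '' FF D u (l.filterMap dec)) ∪ {.p (dd D u)}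
  | _ => ∅

/-- new conditions -/
def F10 (l : List (Tok X (Cond h A) I J)) : Set (Tok X (Cond h A) I J) :=
  {t | ∃ (q : Cond h A) (la : List (Atom I J)), l = la.map Tok.a ∧ q.S = {a | a ∈ la} ∧
    t = Tok.p q}

/-- everything together -/
noncomputable def FA (l : List (Tok X (Cond h A) I J)) : Set (Tok X (Cond h A) I J) :=
  F1 i j l ∪ F2 i l ∪ F3 l ∪ F4 ρ l ∪ F5 l ∪ F6 l ∪ F7 l ∪ F8 l ∪ F9 l ∪ F10 l

theorem FA_countable (hI1 : ∀ δ : I, (Set.Iic δ).Countable) (hi : Function.Injective i)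
    (hj : Function.Injective j) (l : List (Tok X (Cond h A) I J)) : (FA i j ρ l).Countable := by
  unfold FA
  simp only [Set.countable_union]
  refine ⟨⟨⟨⟨⟨⟨⟨⟨⟨?_, ?_⟩, ?_⟩, ?_⟩, ?_⟩, ?_⟩, ?_⟩, ?_⟩, ?_⟩, ?_⟩
  · unfold F1
    split
    · refine Set.Countable.union ?_ ?_
      · apply Set.Subsingleton.countable
        rintro _ ⟨p, hp, rfl⟩ _ ⟨p', hp', rfl⟩
        rw [hi (hp.trans hp'.symm)]
      · apply Set.Subsingleton.countable
        rintro _ ⟨p, hp, rfl⟩ _ ⟨p', hp', rfl⟩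
        rw [hj (hp.trans hp'.symm)]
    · exact Set.countable_empty
  · unfold F2
    split
    · exact (Set.countable_singleton _).union ((Cond.fin _).countable.image _)
    · exact Set.countable_empty
  · unfold F3
    split
    · exact ((hI1 _).mono Set.Iio_subset_Iic_self).image _
    · exact Set.countable_empty
  · unfold F4
    split
    · exact Set.countable_singleton _
    · exact Set.countable_empty
  · unfold F5
    split
    · rename_i δ ν b x
      refine Set.Countable.union (Set.Finite.countable (by simp)) ?_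
      by_cases hx : x.Countable
      · refine (hx.image Tok.j).mono ?_
        rintro _ ⟨-, α, hα, rfl⟩
        exact ⟨α, hα, rfl⟩
      · refine Set.countable_empty.mono ?_
        rintro _ ⟨h, -⟩
        exact (hx h).elim
    · exact Set.countable_empty
  · unfold F6
    split
    · exact Set.Finite.countable (by simp)
    · exact Set.countable_empty
  · unfold F7
    split
    · exact Set.Finite.countable (by simp)
    · exact Set.countable_empty
  · unfold F8
    split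
    · exact Set.countable_singleton _
    · exact Set.countable_empty
  · unfold F9
    split
    · exact (((ystar_countable _ _ _).image _).union ((FF_finite _ _ _).countable.image _)).union
        (Set.countable_singleton _)
    · exact Set.countable_empty
  · unfold F10
    apply Set.Subsingleton.countable
    rintro _ ⟨q, la, hla, hq, rfl⟩ _ ⟨q', la', hla', hq', rfl⟩
    have hinj : Function.Injective (Tok.a : Atom I J → Tok X (Cond h A) I J) := by
      intro a b hab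
      injection hab
    have : la = la' := (List.map_injective_iff.2 hinj) (hla.symm.trans hla')
    subst this
    rw [Cond.ext (hq.trans hq'.symm)]

end Ops

/-- The posets are proper. -/
theorem proper_cond [WellFoundedLT I]
    (hI1 : ∀ δ : I, (Set.Iic δ).Countable)
    (hI2 : ∀ s : Set I, s.Countable → ∃ b, ∀ a ∈ s, a < b)
    (ρ : J → J → I) (hρ : ∀ α β δ, α ≠ β → ρ α β < δ → h α δ ≠ h β δ)
    (hA : ∀ (δ : I) (x : Set J), Set.InjOn (fun α => h α δ) x → ∃ b, ∀ α ∈ x, A δ α b) :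
    IsProper (Cond h A) := by
  classical
  intro X i j hi hj
  have hxinj : Function.Injective (Tok.x : X → Tok X (Cond h A) I J) := by
    intro a b hab
    injection hab
  refine ⟨_, club_of_closure (Tok.x : X → Tok X (Cond h A) I J) hxinj (FA i j ρ)
    (FA_countable i j ρ hI1 hi hj), ?_⟩
  rintro M ⟨hMc, hM⟩ p hp
  have hBc : (clos (FA i j ρ) (Tok.x '' M)).Countable :=
    clos_countable _ (FA_countable i j ρ hI1 hi hj) _ (hMc.image _)
  have hcl := clos_closed (FA i j ρ) (Tok.x '' M)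
  have hMB : ∀ a ∈ M, Tok.x a ∈ clos (FA i j ρ) (Tok.x '' M) :=
    fun a ha => subset_clos _ _ ⟨a, ha, rfl⟩
  generalize clos (FA i j ρ) (Tok.x '' M) = B at hBc hcl hMB hM
  have c1 : ∀ p, i p ∈ M → Tok.p p ∈ B := by
    intro p hp
    apply hcl [.x (i p)] (by simpa using hMB _ hp)
    simp only [FA, Set.mem_union]
    iterate 9 left
    exact Or.inl ⟨p, rfl, rfl⟩
  have c1' : ∀ D, j D ∈ M → Tok.s D ∈ B := by
    intro D hD
    apply hcl [.x (j D)] (by simpa using hMB _ hD)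
    simp only [FA, Set.mem_union]
    iterate 9 left
    exact Or.inr ⟨D, rfl, rfl⟩
  have c2 : ∀ p, Tok.p p ∈ B → i p ∈ M := by
    intro p hp
    apply hM
    apply hcl [.p p] (by simpa using hp)
    simp only [FA, Set.mem_union]
    iterate 8 left
    exact Or.inr (Or.inl rfl)
  have c2' : ∀ p : Cond h A, Tok.p p ∈ B → ∀ a ∈ p.S, Tok.a a ∈ B := by
    intro p hp a ha
    apply hcl [.p p] (by simpa using hp)
    simp only [FA, Set.mem_union]
    iterate 8 left
    exact Or.inr (Or.inr ⟨a, ha, rfl⟩)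
  have c3 : ∀ δ, Tok.i δ ∈ B → ∀ ξ < δ, Tok.i ξ ∈ B := by
    intro δ hδ ξ hξ
    apply hcl [.i δ] (by simpa using hδ)
    simp only [FA, Set.mem_union]
    iterate 7 left
    exact Or.inr ⟨ξ, hξ, rfl⟩
  have c4 : ∀ α β, Tok.j α ∈ B → Tok.j β ∈ B → Tok.i (ρ α β) ∈ B := by
    intro α β hα hβ
    apply hcl [.j α, .j β] (by simp [hα, hβ])
    simp only [FA, Set.mem_union]
    iterate 6 left
    exact Or.inr rfl
  have c5 : ∀ δ' ν' b x, Tok.a (Atom.side δ' ν' b x) ∈ B → x.Countable →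
      Tok.i δ' ∈ B ∧ Tok.i ν' ∈ B ∧ ∀ α ∈ x, Tok.j α ∈ B := by
    intro δ' ν' b x ha hx
    have := hcl [.a (Atom.side δ' ν' b x)] (by simpa using ha)
    refine ⟨this ?_, this ?_, fun α hα => this ?_⟩
    · simp only [FA, Set.mem_union]
      iterate 5 left
      exact Or.inr (Or.inl (Or.inl rfl))
    · simp only [FA, Set.mem_union]
      iterate 5 left
      exact Or.inr (Or.inl (Or.inr rfl))
    · simp only [FA, Set.mem_union]
      iterate 5 left
      exact Or.inr (Or.inr ⟨hx, α, hα, rfl⟩)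
  have c6 : ∀ α ξ ζ, Tok.a (Atom.gap α ξ ζ) ∈ B → Tok.j α ∈ B ∧ Tok.i ξ ∈ B ∧ Tok.i ζ ∈ B := by
    intro α ξ ζ ha
    have := hcl [.a (Atom.gap α ξ ζ)] (by simpa using ha)
    refine ⟨this ?_, this ?_, this ?_⟩
    · simp only [FA, Set.mem_union]
      iterate 4 left
      exact Or.inr (Or.inl rfl)
    · simp only [FA, Set.mem_union]
      iterate 4 left
      exact Or.inr (Or.inr (Or.inl rfl))
    · simp only [FA, Set.mem_union]
      iterate 4 left
      exact Or.inr (Or.inr (Or.inr rfl))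
  have c7 : ∀ δ' ν', Tok.i δ' ∈ B → Tok.i ν' ∈ B →
      Tok.k δ' ν' ∈ B ∧ ∀ b, Tok.a (Atom.side δ' ν' b ∅) ∈ B := by
    intro δ' ν' h1 h2
    have := hcl [.i δ', .i ν'] (by simp [h1, h2])
    refine ⟨this ?_, fun b => this ?_⟩
    · simp only [FA, Set.mem_union]
      iterate 3 left
      exact Or.inr (Or.inl rfl)
    · simp only [FA, Set.mem_union]
      iterate 3 left
      cases b
      · exact Or.inr (Or.inr (Or.inr rfl))
      · exact Or.inr (Or.inr (Or.inl rfl))
  have c8 : ∀ α ξ ζ, Tok.j α ∈ B → Tok.i ξ ∈ B → Tok.i ζ ∈ B → Tok.a (Atom.gap α ξ ζ) ∈ B := by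
    intro α ξ ζ h1 h2 h3
    apply hcl [.j α, .i ξ, .i ζ] (by simp [h1, h2, h3])
    simp only [FA, Set.mem_union]
    iterate 2 left
    exact Or.inr rfl
  have c9 : ∀ D u, Tok.s D ∈ B → Tok.p u ∈ B → ∀ L : List (I × I),
      (∀ k ∈ L, Tok.k k.1 k.2 ∈ B) →
      (∀ q ∈ FF D u L, Tok.p q ∈ B) ∧ (∀ α ∈ ystar D u L, Tok.j α ∈ B) ∧ Tok.p (dd D u) ∈ B := by
    intro D u hD hu L hL
    have := hcl (.s D :: .p u :: L.map (fun k => .k k.1 k.2)) (by
      intro t ht
      simp only [List.mem_cons, List.mem_map] at ht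
      rcases ht with rfl | rfl | ⟨k, hk, rfl⟩
      · exact hD
      · exact hu
      · exact hL k hk)
    have hdec : (L.map (fun k => (Tok.k k.1 k.2 : Tok X (Cond h A) I J))).filterMap dec = L := by
      rw [List.filterMap_map]
      have : (dec ∘ fun k : I × I => (Tok.k k.1 k.2 : Tok X (Cond h A) I J)) = some := by
        funext k
        rfl
      rw [this, List.filterMap_some]
    refine ⟨fun q hq => this ?_, fun α hα => this ?_, this ?_⟩
    · simp only [FA, Set.mem_union]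
      iterate 1 left
      refine Or.inr (Or.inl (Or.inr ⟨q, ?_, rfl⟩))
      rw [hdec]
      exact hq
    · simp only [FA, Set.mem_union]
      iterate 1 left
      refine Or.inr (Or.inl (Or.inl ⟨α, ?_, rfl⟩))
      rw [hdec]
      exact hα
    · simp only [FA, Set.mem_union]
      iterate 1 left
      exact Or.inr (Or.inr rfl)
  have c10 : ∀ u : Cond h A, (∀ a ∈ u.S, Tok.a a ∈ B) → Tok.p u ∈ B := by
    intro u hu
    apply hcl (u.fin.toFinset.toList.map Tok.a) (by
      intro t ht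
      simp only [List.mem_map, Finset.mem_toList, Set.Finite.mem_toFinset] at ht
      obtain ⟨a, ha, rfl⟩ := ht
      exact hu a ha)
    refine Or.inr ⟨u, u.fin.toFinset.toList, rfl, ?_, rfl⟩
    ext a
    simp
  -- the ordinal
  have hne : ∃ δ, Tok.i δ ∉ B := by
    have hc : {ξ | Tok.i ξ ∈ B}.Countable := by
      refine hBc.preimage (f := Tok.i) ?_
      intro a b hab
      injection hab
    obtain ⟨b, hb⟩ := hI2 _ hc
    exact ⟨b, fun hbB => lt_irrefl _ (hb b hbB)⟩
  let δ : I := WellFounded.min (wellFounded_lt (α := I)) {δ | Tok.i δ ∉ B} hne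
  have hδ : ∀ ξ, Tok.i ξ ∈ B ↔ ξ < δ := by
    intro ξ
    constructor
    · intro hξ
      by_contra hcon
      rw [not_lt] at hcon
      apply WellFounded.min_mem (wellFounded_lt (α := I)) {δ | Tok.i δ ∉ B} hne
      rcases hcon.lt_or_eq with hlt | heq
      · exact c3 ξ hξ _ hlt
      · change Tok.i δ ∈ B
        rw [heq]; exact hξ
    · intro hξ
      by_contra hcon
      exact WellFounded.not_lt_min (wellFounded_lt (α := I)) {δ | Tok.i δ ∉ B} hcon hξ
  have hJc : {α | Tok.j α ∈ B}.Countable := by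
    refine hBc.preimage (f := Tok.j) ?_
    intro a b hab
    injection hab
  obtain ⟨q, hqp, hq⟩ := generic_core hI1 hI2 hA δ {α | Tok.j α ∈ B} {p | Tok.p p ∈ B}
    {D | Tok.s D ∈ B} {a | Tok.a a ∈ B} hJc
    (by
      intro α hα β hβ hαβ
      by_contra hne
      exact hρ α β δ hne ((hδ _).1 (c4 α β hα hβ)) hαβ)
    (fun p hp a ha => c2' p hp a ha)
    (fun δ' ν' b x ha hx => ⟨(hδ _).1 (c5 _ _ _ _ ha hx).1, (hδ _).1 (c5 _ _ _ _ ha hx).2.1,
      (c5 _ _ _ _ ha hx).2.2⟩)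
    (fun α ξ ζ ha => ⟨(c6 _ _ _ ha).1, (hδ _).1 (c6 _ _ _ ha).2.1, (hδ _).1 (c6 _ _ _ ha).2.2⟩)
    (fun δ' ν' b h1 h2 => (c7 _ _ ((hδ _).2 h1) ((hδ _).2 h2)).2 b)
    (fun α ξ ζ h1 h2 h3 => c8 _ _ _ h1 ((hδ _).2 h2) ((hδ _).2 h3))
    (fun u hu => c10 u hu)
    (fun D hD u hu L hL => by
      have := c9 D u hD hu L
        (fun k hk => (c7 _ _ ((hδ _).2 (hL k hk).1) ((hδ _).2 (hL k hk).2)).1)
      exact ⟨this.1, this.2.1⟩)
    (fun D hD s hs hex => by
      have := (c9 D s hD hs [] (by simp)).2.2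
      refine ⟨dd D s, ?_, ?_, this⟩
      · unfold dd
        rw [dif_pos hex]
        exact hex.choose_spec.1
      · unfold dd
        rw [dif_pos hex]
        exact hex.choose_spec.2)
    p (c1 p hp)
  refine ⟨q, hqp, ?_⟩
  intro D hDd hD r hr
  obtain ⟨d, hd1, hd2, hd3⟩ := hq D (c1' D hD) hDd r hr
  exact ⟨d, hd1, c2 d hd2, hd3⟩

end Poset

/-! ### The chain condition -/

section ChainCondition

theorem small_iUnion {ι α : Type} (hι : #ι ≤ ℵ_ 1) (f : ι → Set α) (hf : ∀ i, #(f i) ≤ ℵ_ 1) :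
    #(⋃ i, f i : Set α) ≤ ℵ_ 1 := by
  refine (mk_iUnion_le_sum_mk).trans ((sum_le_sum _ (fun _ => ℵ_ 1) hf).trans ?_)
  rw [sum_const']
  calc #ι * ℵ_ 1 ≤ ℵ_ 1 * ℵ_ 1 := mul_le_mul_left hι _
    _ = ℵ_ 1 := mul_eq_self (aleph0_le_aleph 1)

theorem small_union {α : Type} {s t : Set α} (hs : #s ≤ ℵ_ 1) (ht : #t ≤ ℵ_ 1) :
    #(s ∪ t : Set α) ≤ ℵ_ 1 :=
  (mk_union_le s t).trans ((add_le_add hs ht).trans_eq (add_eq_self (aleph0_le_aleph 1)))

theorem small_of_countable {α : Type} {s : Set α} (hs : s.Countable) : #s ≤ ℵ_ 1 :=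
  (le_aleph0_iff_set_countable.2 hs).trans (aleph0_le_aleph 1)

theorem exists_notMem_of_small {K : Type} (hK : ℵ_ 1 < #K) (s : Set K) (hs : #s ≤ ℵ_ 1) :
    ∃ j, j ∉ s := by
  by_contra! hcon
  have : s = Set.univ := Set.eq_univ_of_forall hcon
  rw [this, mk_univ] at hs
  exact absurd hK (not_lt.2 hs)

theorem cc_lemma {N J : Type} (hN : #N ≤ ℵ_ 1) : ∀ (n : ℕ) (K : Type) (_ : ℵ_ 1 < #K)
    (G : K → Finset (J × N)) (_ : ∀ i, (G i).card = n) (Y : K → Set J)
    (_ : ∀ i, (Y i).Countable),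
    ∃ i j : K, i ≠ j ∧ (∀ a ∈ G i, a.1 ∈ Y j → a ∈ G j) ∧ (∀ a ∈ G j, a.1 ∈ Y i → a ∈ G i) := by
  classical
  intro n
  induction n with
  | zero =>
    intro K hK G hG Y hY
    have h1 : 1 < #K := lt_of_lt_of_le (one_lt_aleph0) ((aleph0_le_aleph 1).trans hK.le)
    obtain ⟨i, j, hij⟩ := (one_lt_iff_nontrivial.1 h1).exists_pair_ne
    have hE : ∀ i, G i = ∅ := fun i => Finset.card_eq_zero.1 (hG i)
    refine ⟨i, j, hij, ?_, ?_⟩
    · intro a ha; rw [hE i] at ha; simp at ha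
    · intro a ha; rw [hE j] at ha; simp at ha
  | succ n ih =>
    intro K hK G hG Y hY
    by_cases hbig : ∃ a, ℵ_ 1 < #{i | a ∈ G i}
    · obtain ⟨a, ha⟩ := hbig
      obtain ⟨i, j, hij, h1, h2⟩ := ih {i | a ∈ G i} ha (fun i => (G i.1).erase a)
        (fun i => by rw [Finset.card_erase_of_mem i.2, hG i.1]; rfl)
        (fun i => Y i.1) (fun i => hY i.1)
      refine ⟨i.1, j.1, fun hh => hij (Subtype.ext hh), ?_, ?_⟩
      · intro c hc hcY
        by_cases hca : c = a
        · rw [hca]; exact j.2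
        · exact Finset.mem_of_mem_erase (h1 c (Finset.mem_erase.2 ⟨hca, hc⟩) hcY)
      · intro c hc hcY
        by_cases hca : c = a
        · rw [hca]; exact i.2
        · exact Finset.mem_of_mem_erase (h2 c (Finset.mem_erase.2 ⟨hca, hc⟩) hcY)
    · push Not at hbig
      -- the indices touching a point
      have htouch : ∀ α : J, #{i | ∃ m : N, (α, m) ∈ G i} ≤ ℵ_ 1 := by
        intro α
        have : {i | ∃ m : N, (α, m) ∈ G i} = ⋃ m : N, {i | (α, m) ∈ G i} := by
          ext i; simp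
        rw [this]
        exact small_iUnion hN _ (fun m => hbig (α, m))
      let supp : K → Set J := fun i => {α | ∃ m : N, (α, m) ∈ G i}
      have hsupp : ∀ i, (supp i).Countable := by
        intro i
        have : supp i = Prod.fst '' (G i : Set (J × N)) := by
          ext α; simp [supp]
        rw [this]
        exact ((G i).finite_toSet.image _).countable
      -- indices touching a small set of indices
      have hmeet : ∀ (B : Set K) (Z : K → Set J), #B ≤ ℵ_ 1 → (∀ i, (Z i).Countable) →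
          #(B ∪ ⋃ i : B, ⋃ α : Z i.1, {j | ∃ m : N, (α.1, m) ∈ G j} : Set K) ≤ ℵ_ 1 := by
        intro B Z hB hZ
        refine small_union hB (small_iUnion hB _ (fun i => small_iUnion
          (small_of_countable (hZ i.1)) _ (fun α => htouch α.1)))
      -- a maximal disjoint family
      obtain ⟨A₀, hA₀⟩ := zorn_subset
        {B : Set K | ∀ i ∈ B, ∀ j ∈ B, i ≠ j → Disjoint (supp i) (supp j)} (by
          intro c hc hch
          refine ⟨⋃₀ c, ?_, fun s hs => Set.subset_sUnion_of_mem hs⟩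
          rintro i ⟨s, hs, his⟩ j ⟨t, ht, hjt⟩ hij
          rcases hch.total hs ht with hst | hst
          · exact hc ht i (hst his) j hjt hij
          · exact hc hs i his j (hst hjt) hij)
      have hA₀big : ℵ_ 1 < #A₀ := by
        by_contra hcon
        rw [not_lt] at hcon
        obtain ⟨j, hj⟩ := exists_notMem_of_small hK _ (hmeet A₀ supp hcon hsupp)
        have hjA : j ∉ A₀ := fun hh => hj (Or.inl hh)
        have hdis : ∀ i ∈ A₀, Disjoint (supp i) (supp j) := by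
          intro i hi
          rw [Set.disjoint_left]
          rintro α hαi ⟨m, hm⟩
          apply hj
          right
          simp only [Set.mem_iUnion]
          exact ⟨⟨i, hi⟩, ⟨α, hαi⟩, m, hm⟩
        apply hjA
        refine hA₀.2 (y := insert j A₀) ?_ (Set.subset_insert _ _) (Set.mem_insert _ _)
        rintro a (rfl | ha) c (rfl | hc) hac
        · exact absurd rfl hac
        · exact (hdis c hc).symm
        · exact hdis a ha
        · exact hA₀.1 a ha c hc hac
      obtain ⟨A₁, hA₁, hA₁c⟩ := le_mk_iff_exists_subset.1 hA₀big.le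
      obtain ⟨j, hj⟩ := exists_notMem_of_small hK _ (hmeet A₁ Y hA₁c.le hY)
      have hjA : j ∉ A₁ := fun hh => hj (Or.inl hh)
      have hex : ∃ i ∈ A₁, Disjoint (supp i) (Y j) := by
        by_contra! hcon
        have hch : ∀ i : A₁, ∃ α, α ∈ supp i.1 ∧ α ∈ Y j := by
          intro i
          exact Set.not_disjoint_iff.1 (hcon i.1 i.2)
        choose g hg using hch
        have hginj : Function.Injective g := by
          intro i i' hii
          by_contra hne
          have hd := hA₀.1 i.1 (hA₁ i.2) i'.1 (hA₁ i'.2) (fun hh => hne (Subtype.ext hh))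
          exact Set.disjoint_left.1 hd (hg i).1 (hii ▸ (hg i').1)
        have h1 : #A₁ ≤ #(Y j) :=
          mk_le_of_injective (f := fun i => (⟨g i, (hg i).2⟩ : Y j)) (by
            intro i i' hii
            exact hginj (congrArg Subtype.val hii))
        rw [hA₁c] at h1
        exact absurd (h1.trans (le_aleph0_iff_set_countable.2 (hY j)))
          (not_le.2 (aleph0_lt_aleph_one))
      obtain ⟨i, hi, hdis⟩ := hex
      refine ⟨i, j, fun hh => hjA (hh ▸ hi), ?_, ?_⟩
      · intro a ha haY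
        exact absurd haY (Set.disjoint_left.1 hdis ⟨a.2, ha⟩)
      · intro a ha haY
        exfalso
        apply hj
        right
        simp only [Set.mem_iUnion]
        exact ⟨⟨i, hi⟩, ⟨a.1, haY⟩, a.2, ha⟩

variable {I J : Type} [LinearOrder I] {h : J → I → I} {A : I → J → Bool → Prop}

/-- the type of a side atom -/
def en : Atom I J → Option (I × I × Bool)
  | .side δ ν b _ => some (δ, ν, b)
  | .gap _ _ _ => none

theorem cc_cond (hI : #I ≤ ℵ_ 1) : Aleph2CC (Cond h A) := by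
  classical
  intro W hW
  by_contra hcon
  rw [not_le] at hcon
  let gf : J × (I × I) → Atom I J := fun w => Atom.gap w.1 w.2.1 w.2.2
  have hgf : Function.Injective gf := by
    rintro ⟨a, b, c⟩ ⟨a', b', c'⟩ hh
    simp only [gf, Atom.gap.injEq] at hh
    obtain ⟨rfl, rfl, rfl⟩ := hh
    rfl
  have hfinG : ∀ p : Cond h A, (gf ⁻¹' p.S).Finite := fun p => p.fin.preimage hgf.injOn
  let G : Cond h A → Finset (J × (I × I)) := fun p => (hfinG p).toFinset
  have hG : ∀ p w, w ∈ G p ↔ gf w ∈ p.S := by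
    intro p w
    simp [G]
  let E : Cond h A → Finset (Option (I × I × Bool)) := fun p => p.fin.toFinset.image en
  have hE : ∀ p e, e ∈ E p ↔ ∃ a ∈ p.S, en a = e := by
    intro p e
    simp [E]
  have hcod : #(Finset (Option (I × I × Bool)) × ℕ) ≤ ℵ_ 1 := by
    have hB : #Bool ≤ ℵ_ 1 := (mk_le_aleph0).trans (aleph0_le_aleph 1)
    have h1 : #(I × I × Bool) ≤ ℵ_ 1 := by
      rw [mk_prod, mk_prod]
      simp only [Cardinal.lift_id]
      calc #I * (#I * #Bool) ≤ ℵ_ 1 * (ℵ_ 1 * ℵ_ 1) := by gcongr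
        _ = ℵ_ 1 := by rw [mul_eq_self (aleph0_le_aleph 1), mul_eq_self (aleph0_le_aleph 1)]
    have h2 : #(Option (I × I × Bool)) ≤ ℵ_ 1 := by
      rw [mk_option]
      calc #(I × I × Bool) + 1 ≤ ℵ_ 1 + ℵ_ 1 := by
            gcongr
            exact (one_lt_aleph0).le.trans (aleph0_le_aleph 1)
        _ = ℵ_ 1 := add_eq_self (aleph0_le_aleph 1)
    have h3 : #(Finset (Option (I × I × Bool))) ≤ ℵ_ 1 := by
      rcases finite_or_infinite (Option (I × I × Bool)) with hf | hf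
      · exact (mk_le_aleph0).trans (aleph0_le_aleph 1)
      · rw [mk_finset_of_infinite]
        exact h2
    rw [mk_prod]
    simp only [Cardinal.lift_id]
    calc #(Finset (Option (I × I × Bool))) * #ℕ ≤ ℵ_ 1 * ℵ_ 1 := by
          gcongr
          rw [mk_nat]
          exact aleph0_le_aleph 1
      _ = ℵ_ 1 := mul_eq_self (aleph0_le_aleph 1)
  have hfib : ∃ e : Finset (Option (I × I × Bool)) × ℕ,
      ℵ_ 1 < #{p : W | (E p.1, (G p.1).card) = e} := by
    by_contra! hall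
    have h1 := small_iUnion hcod (fun e => {p : W | (E p.1, (G p.1).card) = e}) hall
    have h2 : (⋃ e, {p : W | (E p.1, (G p.1).card) = e}) = Set.univ := by
      ext p; simp
    rw [h2, mk_univ] at h1
    exact absurd hcon (not_lt.2 h1)
  obtain ⟨⟨e, n⟩, hen⟩ := hfib
  let Y : Cond h A → Set J := fun p => ⋃ a ∈ p.S, xs a
  have hY : ∀ p, (Y p).Countable := by
    intro p
    refine p.fin.countable.biUnion (fun a ha => ?_)
    have := p.val a ha
    cases a with
    | side δ ν b x => exact this.1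
    | gap α ξ ζ => exact Set.countable_empty
  obtain ⟨p, q, hpq, h1, h2⟩ := cc_lemma (N := I × I) (J := J) (by
      rw [mk_prod]
      simp only [Cardinal.lift_id]
      calc #I * #I ≤ ℵ_ 1 * ℵ_ 1 := by gcongr
        _ = ℵ_ 1 := mul_eq_self (aleph0_le_aleph 1)) n
    {p : W | (E p.1, (G p.1).card) = (e, n)} hen (fun p => G p.1.1)
    (fun p => congrArg Prod.snd (show (E p.1.1, (G p.1.1).card) = (e, n) from p.2))
    (fun p => Y p.1.1) (fun p => hY p.1.1)
  have hEpq : E p.1.1 = E q.1.1 := by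
    have e1 : (E p.1.1, (G p.1.1).card) = (e, n) := p.2
    have e2 : (E q.1.1, (G q.1.1).card) = (e, n) := q.2
    exact (congrArg Prod.fst e1).trans (congrArg Prod.fst e2).symm
  -- gaps against sides
  have key : ∀ p q : Cond h A, (∀ a ∈ G p, a.1 ∈ Y q → a ∈ G q) →
      ∀ a ∈ p.S, ∀ c ∈ q.S, (∃ α ξ ζ, a = Atom.gap α ξ ζ) → ¬ Bad c a := by
    rintro p q hpq _ ha c hc ⟨α, ξ, ζ, rfl⟩ hb
    cases c with
    | gap _ _ _ => exact hb
    | side δ ν b x =>
      have hαY : α ∈ Y q := Set.mem_biUnion hc hb.1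
      have := hpq (α, ξ, ζ) ((hG _ _).2 ha) hαY
      exact q.ok _ hc _ ((hG _ _).1 this) hb
  have keys : ∀ p q : Cond h A, E p = E q → ∀ δ ν b x, Atom.side δ ν b x ∈ p.S →
      ∃ x', Atom.side δ ν b x' ∈ q.S := by
    intro p q hpq δ ν b x ha
    have : some (δ, ν, b) ∈ E p := (hE _ _).2 ⟨_, ha, rfl⟩
    rw [hpq] at this
    obtain ⟨c, hc, hcc⟩ := (hE _ _).1 this
    cases c with
    | gap _ _ _ => simp [en] at hcc
    | side δ' ν' b' x' =>
      simp only [en, Option.some.injEq, Prod.mk.injEq] at hcc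
      obtain ⟨rfl, rfl, rfl⟩ := hcc
      exact ⟨x', hc⟩
  refine hW p.1.1 p.1.2 q.1.1 q.1.2 (fun hh => hpq (Subtype.ext (Subtype.ext hh))) ?_
  obtain ⟨t, ht⟩ := compat_of (p := p.1.1) (q := q.1.1) (by
    intro a ha c hc
    cases a with
    | side δ₁ ν₁ b₁ x₁ =>
      cases c with
      | side δ₂ ν₂ b₂ x₂ =>
        obtain ⟨x', hx'⟩ := keys _ _ hEpq _ _ _ _ ha
        exact ⟨fun hb => q.1.1.ok _ hx' _ hc hb, fun hb => q.1.1.ok _ hc _ hx' hb⟩
      | gap α ξ ζ =>
        exact ⟨key q.1.1 p.1.1 h2 _ hc _ ha ⟨_, _, _, rfl⟩, fun hb => hb⟩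
    | gap α ξ ζ =>
      exact ⟨fun hb => hb, key p.1.1 q.1.1 h1 _ ha _ hc ⟨_, _, _, rfl⟩⟩)
  refine ⟨t, ?_, ?_⟩
  · rw [le_def, ht]
    exact Set.subset_union_left
  · rw [le_def, ht]
    exact Set.subset_union_right

end ChainCondition

/-! ### Dense sets and the generic clubs -/

section Dense

variable {I J : Type} [LinearOrder I] {h : J → I → I} {A : I → J → Bool → Prop}

/-- closed unbounded subsets of `I` -/
structure IsClubI (C : Set I) : Prop where
  unb : ∀ ξ, ∃ δ ∈ C, ξ < δ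
  cl : ∀ δ, (∃ ξ, ξ < δ) → (∀ ξ < δ, ∃ δ' ∈ C, ξ < δ' ∧ δ' < δ) → δ ∈ C

/-- dense sets for unboundedness -/
def Dunb (h : J → I → I) (A : I → J → Bool → Prop) (α : J) (ξ : I) : Set (Cond h A) :=
  {p | ∃ δ ν b x, Atom.side δ ν b x ∈ p.S ∧ α ∈ x ∧ ξ < δ}

/-- dense sets for closedness -/
def Dcl (h : J → I → I) (A : I → J → Bool → Prop) (α : J) (δ : I) : Set (Cond h A) :=
  {p | (∃ ν b x, Atom.side δ ν b x ∈ p.S ∧ α ∈ x) ∨
    (∃ ξ ζ, Atom.gap α ξ ζ ∈ p.S ∧ ξ < δ ∧ δ ≤ ζ) ∨ ∀ ξ, ¬ ξ < δ}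

theorem dunb_dense (hI2 : ∀ s : Set I, s.Countable → ∃ b, ∀ a ∈ s, a < b)
    (hA : ∀ (δ : I) (x : Set J), Set.InjOn (fun α => h α δ) x → ∃ b, ∀ α ∈ x, A δ α b)
    (α : J) (ξ : I) : IsDenseSet (Dunb h A α ξ) := by
  intro p
  obtain ⟨δ, hδ⟩ := hI2 ({ξ} ∪ (⋃ a ∈ p.S, {(dn a).1, (dn a).2}))
    ((Set.countable_singleton _).union (p.fin.countable.biUnion
      (fun a _ => Set.Finite.countable (by simp))))
  have h1 : ξ < δ := hδ ξ (Or.inl rfl)
  have h2 : ∀ a ∈ p.S, (dn a).1 < δ ∧ (dn a).2 < δ := by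
    intro a ha
    exact ⟨hδ _ (Or.inr (Set.mem_biUnion ha (Or.inl rfl))),
      hδ _ (Or.inr (Set.mem_biUnion ha (Or.inr rfl)))⟩
  obtain ⟨b, hb⟩ := hA δ {α} (Set.injOn_singleton _ _)
  obtain ⟨q, hq⟩ := exists_insert p (Atom.side δ (h α δ) b {α})
    ⟨Set.countable_singleton _, Set.injOn_singleton _ _, by simp, hb⟩ (by simp [Bad]) (by
      intro c hc
      cases c with
      | side δ' ν' b' x' =>
        have e := h2 _ hc
        refine ⟨?_, ?_⟩
        · rintro (⟨g1, g2⟩ | ⟨g1, g2⟩)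
          · exact absurd g1 (not_lt.2 e.1.le)
          · exact absurd g1 e.1.ne'
        · rintro (⟨g1, g2⟩ | ⟨g1, g2⟩)
          · exact absurd e.2 (not_lt.2 g2)
          · exact absurd g1 e.1.ne
      | gap β ξ' ζ' =>
        have e := h2 _ hc
        refine ⟨?_, fun hh => hh⟩
        rintro ⟨g1, g2, g3⟩
        exact absurd e.2 (not_lt.2 g3))
  refine ⟨q, ⟨δ, h α δ, b, {α}, ?_, rfl, h1⟩, ?_⟩
  · rw [hq]; exact Set.mem_insert _ _
  · rw [le_def, hq]; exact Set.subset_insert _ _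

theorem dcl_dense (α : J) (δ : I) : IsDenseSet (Dcl h A α δ) := by
  intro p
  by_cases h0 : ∀ ξ, ¬ ξ < δ
  · exact ⟨p, Or.inr (Or.inr h0), le_rfl⟩
  push Not at h0
  obtain ⟨ξ₀, hξ₀⟩ := h0
  by_cases h1 : ∃ ν b x, Atom.side δ ν b x ∈ p.S ∧ α ∈ x
  · exact ⟨p, Or.inl h1, le_rfl⟩
  obtain ⟨ξ, hξ, hmax⟩ := Set.exists_max_image
    ({ξ₀} ∪ {ξ | ξ < δ ∧ ∃ a ∈ p.S, (dn a).1 = ξ}) id
    ((Set.finite_singleton _).union ((p.fin.image (fun a => (dn a).1)).subset (by
      rintro ξ ⟨-, a, ha, rfl⟩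
      exact ⟨a, ha, rfl⟩))) ⟨ξ₀, Or.inl rfl⟩
  have hξδ : ξ < δ := by
    rcases hξ with rfl | hξ
    · exact hξ₀
    · exact hξ.1
  obtain ⟨q, hq⟩ := exists_insert p (Atom.gap α ξ δ) trivial (fun hh => hh) (by
    intro c hc
    refine ⟨fun hh => hh, ?_⟩
    cases c with
    | gap _ _ _ => exact fun hh => hh
    | side δ' ν' b' x' =>
      rintro ⟨g1, g2, g3⟩
      rcases g3.lt_or_eq with g3 | rfl
      · exact absurd (hmax δ' (Or.inr ⟨g3, _, hc, rfl⟩)) (not_le.2 g2)
      · exact h1 ⟨_, _, _, hc, g1⟩)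
  refine ⟨q, Or.inr (Or.inl ⟨ξ, δ, ?_, hξδ, le_rfl⟩), ?_⟩
  · rw [hq]; exact Set.mem_insert _ _
  · rw [le_def, hq]; exact Set.subset_insert _ _

/-- the generic set attached to `α` -/
def EE (G : Set (Cond h A)) (α : J) : Set I :=
  {δ | ∃ p ∈ G, ∃ ν b x, Atom.side δ ν b x ∈ p.S ∧ α ∈ x}

theorem notBad_of_filter {G : Set (Cond h A)} (hG : IsFilt G) {p q : Cond h A} (hp : p ∈ G)
    (hq : q ∈ G) {a c : Atom I J} (ha : a ∈ p.S) (hc : c ∈ q.S) : ¬ Bad a c := by
  obtain ⟨t, -, ht1, ht2⟩ := hG.dir p hp q hq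
  exact t.ok a (ht1 ha) c (ht2 hc)

theorem club_EE {G : Set (Cond h A)} (hG : IsFilt G)
    (h1 : ∀ α ξ, (G ∩ Dunb h A α ξ).Nonempty) (h2 : ∀ α δ, (G ∩ Dcl h A α δ).Nonempty) (α : J) :
    IsClubI (EE G α) where
  unb := by
    intro ξ
    obtain ⟨p, hp, δ, ν, b, x, ha, hα, hξ⟩ := h1 α ξ
    exact ⟨δ, ⟨p, hp, ν, b, x, ha, hα⟩, hξ⟩
  cl := by
    rintro δ ⟨ξ₀, hξ₀⟩ hlim
    obtain ⟨p, hp, hh | hh | hh⟩ := h2 α δ
    · obtain ⟨ν, b, x, ha, hα⟩ := hh
      exact ⟨p, hp, ν, b, x, ha, hα⟩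
    · obtain ⟨ξ, ζ, ha, hξ, hζ⟩ := hh
      obtain ⟨δ', ⟨q, hq, ν, b, x, hc, hα⟩, e1, e2⟩ := hlim ξ hξ
      exact (notBad_of_filter hG hq hp hc ha ⟨hα, e1, e2.le.trans hζ⟩).elim
    · exact absurd hξ₀ (hh ξ₀)

theorem inter_club [WellFoundedLT I] (hI2 : ∀ s : Set I, s.Countable → ∃ b, ∀ a ∈ s, a < b)
    {ι : Type} [Countable ι] (C : ι → Set I) (hC : ∀ n, IsClubI (C n)) : ∃ δ, ∀ n, δ ∈ C n := by
  have hstep : ∀ ξ : I, ∃ f : I, ξ < f ∧ ∀ n, ∃ δ ∈ C n, ξ < δ ∧ δ < f := by
    intro ξ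
    choose g hg using fun n => (hC n).unb ξ
    obtain ⟨f, hf⟩ := hI2 ({ξ} ∪ Set.range g)
      ((Set.countable_singleton _).union (Set.countable_range g))
    exact ⟨f, hf _ (Or.inl rfl), fun n => ⟨g n, (hg n).1, (hg n).2, hf _ (Or.inr ⟨n, rfl⟩)⟩⟩
  choose f hf1 hf2 using hstep
  obtain ⟨a₀, -⟩ := hI2 ∅ Set.countable_empty
  let a : ℕ → I := fun n => f^[n] a₀
  have ha : ∀ n, a (n + 1) = f (a n) := fun n => Function.iterate_succ_apply' f n a₀
  have hne : {δ : I | ∀ n, a n < δ}.Nonempty := by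
    obtain ⟨b, hb⟩ := hI2 (Set.range a) (Set.countable_range a)
    exact ⟨b, fun n => hb _ ⟨n, rfl⟩⟩
  let δ : I := WellFounded.min (wellFounded_lt (α := I)) {δ : I | ∀ n, a n < δ} hne
  have hδ : ∀ n, a n < δ :=
    WellFounded.min_mem (wellFounded_lt (α := I)) {δ : I | ∀ n, a n < δ} hne
  refine ⟨δ, fun n => (hC n).cl δ ⟨a 0, hδ 0⟩ ?_⟩
  intro ξ hξ
  have : ∃ k, ξ ≤ a k := by
    by_contra! hcon
    exact WellFounded.not_lt_min (wellFounded_lt (α := I)) {δ : I | ∀ n, a n < δ} hcon hξ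
  obtain ⟨k, hk⟩ := this
  obtain ⟨δ', h1, h2, h3⟩ := hf2 (a k) n
  refine ⟨δ', h1, hk.trans_lt h2, h3.trans ?_⟩
  rw [← ha]
  exact hδ (k + 1)

end Dense

/-! ### Countable posets and Cohen reals -/

section Cohen

theorem proper_of_countable (P : Type) [PartialOrder P] [Countable P] : IsProper P := by
  intro X i j hi hj
  refine ⟨{M | M.Countable ∧ Set.range i ⊆ M}, ⟨fun M hM => hM.1, ?_, ?_⟩, ?_⟩
  · intro B hB
    exact ⟨B ∪ Set.range i, ⟨hB.union (Set.countable_range i), Set.subset_union_right⟩,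
      Set.subset_union_left⟩
  · intro M hM hMC
    exact ⟨Set.countable_iUnion (fun n => (hMC n).1),
      (hMC 0).2.trans (Set.subset_iUnion M 0)⟩
  · rintro M ⟨-, hM⟩ p -
    refine ⟨p, le_rfl, ?_⟩
    intro D hD _ r _
    obtain ⟨d, hd, hdr⟩ := hD r
    exact ⟨d, hd, hM ⟨d, rfl⟩, d, le_rfl, hdr⟩

theorem cc_of_countable (P : Type) [PartialOrder P] [Countable P] : Aleph2CC P :=
  fun W _ => small_of_countable (Set.to_countable W)

/-- Cohen forcing -/
@[ext]
structure Coh0 : Type where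
  l : List Bool

instance : Countable Coh0 :=
  Function.Injective.countable (f := Coh0.l) (fun _ _ hh => Coh0.ext hh)

instance : PartialOrder Coh0 where
  le p q := q.l <+: p.l
  le_refl p := List.prefix_rfl
  le_trans p q r h1 h2 := h2.trans h1
  le_antisymm p q h1 h2 := Coh0.ext (h2.eq_of_length (le_antisymm h2.length_le h1.length_le))

theorem coh0_le {p q : Coh0} : p ≤ q ↔ q.l <+: p.l := Iff.rfl

/-- The forcing axiom for families of size at most `ℵ₂`. -/
def FAx (P : Type) [PartialOrder P] : Prop :=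
  ∀ (ι : Type) (D : ι → Set P), #ι ≤ ℵ_ 2 → (∀ a, IsDenseSet (D a)) →
    ∃ G, IsFilt G ∧ ∀ a, (G ∩ D a).Nonempty

theorem aleph1_le_aleph2 : ℵ_ 1 ≤ (ℵ_ 2 : Cardinal.{0}) := aleph_le_aleph.2 (by norm_num)

theorem many_reals (hFA : FAx Coh0) : ℵ_ 2 < #(ℕ → Bool) := by
  by_contra hcon
  rw [not_lt] at hcon
  let D : (ℕ → Bool) ⊕ ℕ → Set Coh0 := fun a =>
    match a with
    | .inl x => {p | ∃ (n : ℕ) (hn : n < p.l.length), p.l[n] ≠ x n}
    | .inr n => {p | n < p.l.length}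
  obtain ⟨G, hG, hGD⟩ := hFA ((ℕ → Bool) ⊕ ℕ) D (by
    rw [mk_sum]
    simp only [Cardinal.lift_id, mk_nat]
    have h0 : ℵ₀ ≤ (ℵ_ 2 : Cardinal.{0}) := aleph0_le_aleph 2
    exact (add_le_add hcon h0).trans_eq (add_eq_self h0)) (by
    rintro (x | n) p
    · refine ⟨⟨p.l ++ [!(x p.l.length)]⟩, ⟨p.l.length, by simp, ?_⟩, ?_⟩
      · simp
      · exact List.prefix_append _ _
    · refine ⟨⟨p.l ++ List.replicate (n + 1) true⟩, ?_, ?_⟩
      · change n < (p.l ++ List.replicate (n + 1) true).length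
        simp only [List.length_append, List.length_replicate]
        omega
      · exact List.prefix_append _ _)
  choose p hp using fun n : ℕ => hGD (.inr n)
  let y : ℕ → Bool := fun n => (p n).l[n]'(hp n).2
  obtain ⟨q, hq, n, hn, hqn⟩ := hGD (.inl y)
  apply hqn
  obtain ⟨t, -, ht1, ht2⟩ := hG.dir q hq (p n) (hp n).1
  have e1 := List.IsPrefix.getElem (coh0_le.1 ht1) hn
  have e2 := List.IsPrefix.getElem (coh0_le.1 ht2) (hp n).2
  change q.l[n] = (p n).l[n]'(hp n).2
  rw [e1, e2]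

end Cohen

/-! ### The family of eventually different functions -/

section Family

theorem exists_family {I J : Type} [LinearOrder I] [LinearOrder J] [WellFoundedLT J]
    (hI1 : ∀ δ : I, (Set.Iic δ).Countable)
    (hI2 : ∀ s : Set I, s.Countable → ∃ b, ∀ a ∈ s, a < b)
    (hJ : ∀ α : J, #(Set.Iio α) ≤ #I) :
    ∃ (h : J → I → I) (ρ : J → J → I), ∀ α β δ, α ≠ β → ρ α β < δ → h α δ ≠ h β δ := by
  classical
  have he : ∀ α : J, ∃ e : I → J, ∀ β < α, ∃ i, e i = β := by
    intro α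
    obtain ⟨f⟩ := (Cardinal.le_def _ _).1 (hJ α)
    refine ⟨fun i => if hh : ∃ β : Set.Iio α, f β = i then hh.choose.1 else α, ?_⟩
    intro β hβ
    have hh : ∃ β' : Set.Iio α, f β' = f ⟨β, Set.mem_Iio.2 hβ⟩ := ⟨⟨β, Set.mem_Iio.2 hβ⟩, rfl⟩
    refine ⟨f ⟨β, Set.mem_Iio.2 hβ⟩, ?_⟩
    refine (dif_pos hh).trans ?_
    exact congrArg Subtype.val (f.injective hh.choose_spec)
  choose e he using he
  choose ub hub using hI2
  let ub' : Set I → I := fun s => if hs : s.Countable then ub s hs else ub ∅ Set.countable_empty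
  have hub' : ∀ s : Set I, s.Countable → ∀ a ∈ s, a < ub' s := by
    intro s hs a ha
    simp only [ub', dif_pos hs]
    exact hub s hs a ha
  let stp : (α : J) → ((β : J) → β < α → (I → I)) → (I → I) := fun α rec δ =>
    ub' {a | ∃ i, i < δ ∧ ∃ hlt : e α i < α, rec (e α i) hlt δ = a}
  let h : J → I → I := WellFounded.fix (wellFounded_lt (α := J)) stp
  have hfix : ∀ α, h α = stp α (fun β _ => h β) := fun α =>
    WellFounded.fix_eq (wellFounded_lt (α := J)) stp α
  have hlt : ∀ α i δ, i < δ → e α i < α → h (e α i) δ < h α δ := by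
    intro α i δ hi hα
    rw [hfix α]
    apply hub' {a | ∃ i, i < δ ∧ ∃ _ : e α i < α, h (e α i) δ = a}
    · refine (((hI1 δ).mono Set.Iio_subset_Iic_self).image (fun i => h (e α i) δ)).mono ?_
      rintro _ ⟨i, hi, -, rfl⟩
      exact ⟨i, hi, rfl⟩
    · exact ⟨i, hi, hα, rfl⟩
  choose σ hσ using he
  obtain ⟨i₀, -⟩ : ∃ b : I, ∀ a ∈ (∅ : Set I), a < b := ⟨ub' ∅, hub' ∅ Set.countable_empty⟩
  refine ⟨h, fun α β => if hh : α < β then σ β α hh else if hh : β < α then σ α β hh else i₀, ?_⟩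
  intro α β δ hne hρ
  rcases lt_or_gt_of_ne hne with hh | hh
  · simp only [dif_pos hh] at hρ
    have := hlt β (σ β α hh) δ hρ (by rw [hσ]; exact hh)
    rw [hσ] at this
    exact this.ne
  · simp only [dif_neg hh.not_gt, dif_pos hh] at hρ
    have := hlt α (σ α β hh) δ hρ (by rw [hσ]; exact hh)
    rw [hσ] at this
    exact this.ne'

end Family

/-! ### The contradiction -/

section Final

theorem no_FA (hFA : ∀ (P : Type) [PartialOrder P], Nonempty P → IsProper P → Aleph2CC P → FAx P) :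
    False := by
  classical
  let I : Type := (ℵ_ 1).ord.ToType
  let J : Type := (ℵ_ 2).ord.ToType
  have hI : #I = ℵ_ 1 := mk_ord_toType _
  have hJ : #J = ℵ_ 2 := mk_ord_toType _
  have h12 : (ℵ_ 2 : Cardinal.{0}) = Order.succ (ℵ_ 1) := by
    rw [succ_aleph]
    congr 1
    norm_num
  have h01 : (ℵ_ 1 : Cardinal.{0}) = Order.succ ℵ₀ := by
    rw [← aleph_zero, succ_aleph]
    congr 1
    norm_num
  have hI1 : ∀ δ : I, (Set.Iic δ).Countable := by
    intro δ
    have h1 : #(Set.Iio δ) < ℵ_ 1 := (mk_Iio_lt δ (by simp [I])).trans_eq hI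
    have h2 : #(Set.Iio δ) ≤ ℵ₀ := Order.lt_succ_iff.1 (h1.trans_eq h01)
    rw [← Set.Iio_insert]
    exact (le_aleph0_iff_set_countable.1 h2).insert δ
  have hI2 : ∀ s : Set I, s.Countable → ∃ b, ∀ a ∈ s, a < b := by
    intro s hs
    by_contra! hcon
    have h1 : (⋃ a ∈ s, Set.Iic a) = Set.univ := by
      apply Set.eq_univ_of_forall
      intro b
      obtain ⟨a, ha, hab⟩ := hcon b
      exact Set.mem_biUnion ha hab
    have h2 : (Set.univ : Set I).Countable := by
      rw [← h1]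
      exact hs.biUnion (fun a _ => hI1 a)
    have h3 := le_aleph0_iff_set_countable.2 h2
    rw [mk_univ, hI] at h3
    exact absurd h3 (not_le.2 aleph0_lt_aleph_one)
  have hJI : ∀ α : J, #(Set.Iio α) ≤ #I := by
    intro α
    have h1 : #(Set.Iio α) < ℵ_ 2 := (mk_Iio_lt α (by simp [J])).trans_eq hJ
    exact (Order.lt_succ_iff.1 (h1.trans_eq h12)).trans_eq hI.symm
  obtain ⟨h, ρ, hρ⟩ := exists_family hI1 hI2 hJI
  have hcoh := many_reals (hFA Coh0 ⟨⟨[]⟩⟩ (proper_of_countable _) (cc_of_countable _))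
  obtain ⟨r⟩ : Nonempty (J ↪ (ℕ → Bool)) := (Cardinal.le_def _ _).1 (by rw [hJ]; exact hcoh.le)
  have hJne : Nonempty J := by
    rw [← mk_ne_zero_iff, hJ]
    exact (aleph_pos 2).ne'
  -- the main consequence of the forcing axiom
  have main : ∀ A : I → J → Bool → Prop,
      (∀ (δ : I) (x : Set J), Set.InjOn (fun α => h α δ) x → ∃ b, ∀ α ∈ x, A δ α b) →
      ∃ G : Set (Cond h A), IsFilt G ∧ ∀ α, IsClubI (EE G α) := by
    intro A hA
    have hP : IsProper (Cond h A) := proper_cond hI1 hI2 ρ hρ hA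
    have hcc : Aleph2CC (Cond h A) := cc_cond hI.le
    let D : (J × I) ⊕ (J × I) → Set (Cond h A) := fun a =>
      match a with
      | .inl c => Dunb h A c.1 c.2
      | .inr c => Dcl h A c.1 c.2
    have hne : Nonempty (Cond h A) := ⟨⟨∅, Set.finite_empty, by simp, by simp⟩⟩
    obtain ⟨G, hG, hGD⟩ := hFA (Cond h A) hne hP hcc ((J × I) ⊕ (J × I)) D (by
      have h0 : ℵ₀ ≤ (ℵ_ 2 : Cardinal.{0}) := aleph0_le_aleph 2
      have h1 : #(J × I) ≤ ℵ_ 2 := by
        rw [mk_prod]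
        simp only [Cardinal.lift_id]
        rw [hI, hJ]
        calc ℵ_ 2 * ℵ_ 1 ≤ ℵ_ 2 * ℵ_ 2 := by gcongr; norm_num
          _ = ℵ_ 2 := mul_eq_self h0
      rw [mk_sum]
      simp only [Cardinal.lift_id]
      exact (add_le_add h1 h1).trans_eq (add_eq_self h0)) (by
      rintro (⟨α, ξ⟩ | ⟨α, ξ⟩)
      · exact dunb_dense hI2 hA α ξ
      · exact dcl_dense α ξ)
    exact ⟨G, hG, fun α => club_EE hG (fun α ξ => hGD (.inl (α, ξ)))
      (fun α ξ => hGD (.inr (α, ξ))) α⟩
  -- the first filter bounds the heights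
  obtain ⟨G₀, hG₀, hE₀⟩ := main (fun _ _ _ => True) (fun _ _ _ => ⟨true, fun _ _ => trivial⟩)
  have hg : ∀ δ : I, ∃ g : I, δ < g ∧ ∀ α, δ ∈ EE G₀ α → h α δ < g := by
    intro δ
    obtain ⟨g, ⟨p, hp, ν, b, x, hpx, -⟩, hδg⟩ := (hE₀ hJne.some).unb δ
    refine ⟨g, hδg, ?_⟩
    rintro α ⟨p', hp', ν', b', x', hpx', hα'⟩
    have h1 : h α δ ≤ ν' := (p'.val _ hpx').2.2.1 α hα'
    have h2 := notBad_of_filter hG₀ hp' hp hpx' hpx
    refine h1.trans_lt ?_
    by_contra hcon
    exact h2 (Or.inl ⟨hδg, not_lt.1 hcon⟩)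
  choose g hg1 hg2 using hg
  have hη : ∀ δ : I, ∃ η : ℕ → I, ∀ ζ < g δ, ∃ j, η j = ζ := by
    intro δ
    obtain ⟨η, hη⟩ := ((hI1 (g δ)).mono Set.Iio_subset_Iic_self).exists_eq_range ⟨δ, hg1 δ⟩
    refine ⟨η, fun ζ hζ => ?_⟩
    have : ζ ∈ Set.range η := hη ▸ hζ
    exact this
  choose η hη using hη
  -- the filters deciding the bits
  have hbits : ∀ jm : ℕ × ℕ, ∃ G : Set (Cond h
      (fun δ α b => h α δ = η δ jm.1 → r α jm.2 = b)), IsFilt G ∧ ∀ α, IsClubI (EE G α) := by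
    intro jm
    apply main
    intro δ x hx
    by_cases hex : ∃ α ∈ x, h α δ = η δ jm.1
    · obtain ⟨α, hα, hαη⟩ := hex
      refine ⟨r α jm.2, ?_⟩
      intro β hβ hβη
      rw [hx hβ hα (hβη.trans hαη.symm)]
    · exact ⟨true, fun α hα hαη => absurd ⟨α, hα, hαη⟩ hex⟩
  choose G hG hE using hbits
  have hpt : ∀ α : J, ∃ δ : I, δ ∈ EE G₀ α ∧ ∀ jm, δ ∈ EE (G jm) α := by
    intro α
    obtain ⟨δ, hδ⟩ := inter_club hI2 (ι := Option (ℕ × ℕ))
      (fun o => match o with
        | none => EE G₀ α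
        | some jm => EE (G jm) α) (by
      rintro (_ | jm)
      · exact hE₀ α
      · exact hE jm α)
    exact ⟨δ, hδ none, fun jm => hδ (some jm)⟩
  choose d hd1 hd2 using hpt
  -- an uncountable fibre
  have hfib : ∃ δ, ¬ {α | d α = δ}.Countable := by
    by_contra! hall
    have h1 := small_iUnion hI.le (fun δ => {α | d α = δ}) (fun δ => small_of_countable (hall δ))
    have h2 : (⋃ δ, {α | d α = δ}) = Set.univ := by
      ext α; simp
    rw [h2, mk_univ, hJ, h12] at h1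
    exact absurd (Order.lt_succ (ℵ_ 1 : Cardinal.{0})) (not_lt.2 h1)
  obtain ⟨δ, hδ⟩ := hfib
  apply hδ
  refine Set.MapsTo.countable_of_injOn (f := fun α => h α δ) (t := Set.Iio (g δ)) ?_ ?_
    ((hI1 _).mono Set.Iio_subset_Iic_self)
  · intro α hα
    have : d α = δ := hα
    exact hg2 δ α (this ▸ hd1 α)
  · intro α hα β hβ hαβ
    have eα : d α = δ := hα
    have eβ : d β = δ := hβ
    have hhαβ : h α δ = h β δ := hαβ
    apply r.injective
    funext m
    obtain ⟨j, hj⟩ := hη δ (h α δ) (hg2 δ α (eα ▸ hd1 α))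
    obtain ⟨p, hp, ν, b, x, hpx, hαx⟩ := eα ▸ hd2 α (j, m)
    obtain ⟨p', hp', ν', b', x', hpx', hβx⟩ := eβ ▸ hd2 β (j, m)
    have h1 : r α m = b := (p.val _ hpx).2.2.2 α hαx hj.symm
    have h2 : r β m = b' := (p'.val _ hpx').2.2.2 β hβx (hhαβ ▸ hj.symm)
    have h3 : b = b' := by
      by_contra hne
      exact notBad_of_filter (hG (j, m)) hp hp' hpx hpx' (Or.inr ⟨rfl, hne⟩)
    rw [h1, h2, h3]

end Final

end Pool.Agent.helper943_FA
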